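import Pool.Agent.helper55.FP.LDefs

/-!
# FP project, part L2 (analysis of the lace expansion): definitions

`Lace1` is the statement delivered by the probabilistic part L1.
-/

set_option autoImplicit false

open MeasureTheory Set

namespace Pool.Agent.helper55.FP

variable {d : ℕ}

open Classical in
/-- `p` times the indicator of the neighbours of the origin -/
noncomputable def pJ (p : ℝ) : V d → ℝ := fun x => if Adj 0 x then p else 0

/-- `ℓ¹` norm -/
noncomputable def l1 (x : V d) : ℝ := ∑ i, |(x i : ℝ)|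

/-- exponential decay of the two-point function at `p` -/
def ExpDec (d : ℕ) (p : ℝ) : Prop :=
  ∃ C > 0, ∃ c > 0, ∀ x : V d, tau p x ≤ C * Real.exp (-c * ‖x‖)

/-- the output of the lace expansion at fixed `d` and `p`:
`tau = (δ + Q) * (δ + pJ * tau)` with `Q` small -/
structure LacePi (d : ℕ) (p ε : ℝ) (Q : V d → ℝ) : Prop where
  summable : Summable (fun x => (1 + l1 x ^ 2) * |Q x|)
  sum_le : ∑' x, (1 + l1 x ^ 2) * |Q x| ≤ ε
  eqn : ∀ x, tau p x = dirac0 x + Q x + conv (pJ p) (tau p) x + conv Q (conv (pJ p) (tau p)) x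

/-- the result of part L1 (expansion and diagrammatic bounds) -/
def Lace1 : Prop :=
  ∃ C > 0, ∀ (d : ℕ) (p s : ℝ), 1 ≤ d → 0 ≤ p → p ≤ 1 → ExpDec d p →
    (∀ x : V d, conv (pJ p) (cpow (tau p) 8) x ≤ s) → C * s ≤ 1 →
      ∃ Q : V d → ℝ, LacePi d p (C * s) Q

/-- scalar product -/
noncomputable def dotk (k : Fin d → ℝ) (x : V d) : ℝ := ∑ i, k i * (x i : ℝ)

/-- cosine transform -/
noncomputable def ct (f : V d → ℝ) (k : Fin d → ℝ) : ℝ := ∑' x, f x * Real.cos (dotk k x)

/-- transform of the step distribution of simple random walk -/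
noncomputable def Dh (k : Fin d → ℝ) : ℝ := (∑ i, Real.cos (k i)) / d

/-- uniform law on `(-π, π]` -/
noncomputable def circ : Measure ℝ :=
  ENNReal.ofReal (1 / (2 * Real.pi)) • (volume : Measure ℝ).restrict (Ioc (-Real.pi) Real.pi)

instance : IsProbabilityMeasure circ := ⟨by
  have hpi := Real.pi_pos
  have h : Real.pi - -Real.pi = 2 * Real.pi := by ring
  simp only [circ, Measure.smul_apply, Measure.restrict_apply_univ, Real.volume_Ioc, smul_eq_mul, h]
  rw [← ENNReal.ofReal_mul (by positivity), one_div, inv_mul_cancel₀ (by positivity),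
    ENNReal.ofReal_one]⟩

/-- uniform law on `(-π, π]^d` -/
noncomputable def muT (d : ℕ) : Measure (Fin d → ℝ) := Measure.pi (fun _ => circ)

instance (d : ℕ) : IsProbabilityMeasure (muT d) := by unfold muT; infer_instance

/-- invariance under permutations of the coordinates -/
def PermInv (Q : V d → ℝ) : Prop :=
  ∀ (σ : Equiv.Perm (Fin d)) (x : V d), Q (fun i => x (σ i)) = Q x

/-- infrared bound with constant `K` -/
def IR (K : ℝ) (d : ℕ) (p : ℝ) : Prop :=
  ∀ k : Fin d → ℝ, 0 ≤ ct (tau p) k ∧ ct (tau p) k * (1 - Dh k) ≤ K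

end Pool.Agent.helper55.FP
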