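import Pool.Agent.helper90.FP.LIR

/-!
# FP project, part L2, module LBall: the volume of balls
-/

set_option autoImplicit false

open MeasureTheory Set

namespace Pool.Agent.helper55.FP

/-! ### integration on the circle -/

theorem LBall_integrable_circ {f : ℝ → ℝ} (hf : Continuous f) : Integrable f circ := by
  unfold circ
  refine Integrable.smul_measure ?_ ENNReal.ofReal_ne_top
  exact (hf.integrableOn_Icc (a := -Real.pi) (b := Real.pi)).mono_set Ioc_subset_Icc_self

theorem LBall_integral_circ (f : ℝ → ℝ) :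
    ∫ t, f t ∂circ = (1 / (2 * Real.pi)) * ∫ t in (-Real.pi)..Real.pi, f t := by
  have hpi := Real.pi_pos
  unfold circ
  rw [integral_smul_measure, ENNReal.toReal_ofReal (by positivity),
    intervalIntegral.integral_of_le (by linarith), smul_eq_mul]

theorem LBall_int_cos (n : ℤ) : ∫ t, Real.cos (t * n) ∂circ = if n = 0 then 1 else 0 := by
  have hpi := Real.pi_pos
  rw [LBall_integral_circ]
  split_ifs with hn
  · subst hn
    simp only [Int.cast_zero, mul_zero, Real.cos_zero, intervalIntegral.integral_const,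
      smul_eq_mul, mul_one]
    field_simp
    ring
  · have hn' : (n : ℝ) ≠ 0 := by exact_mod_cast hn
    rw [intervalIntegral.integral_comp_mul_right (fun t => Real.cos t) hn', integral_cos]
    have h1 : Real.sin (Real.pi * n) = 0 := by rw [mul_comm]; exact Real.sin_int_mul_pi n
    have h2 : Real.sin (-Real.pi * n) = 0 := by
      rw [neg_mul, Real.sin_neg, h1, neg_zero]
    rw [h1, h2]
    simp

/-! ### the Fejer function -/

/-- one dimensional Fejer function `(1 - |n|/R)_+` -/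
noncomputable def fej (R : ℕ) (n : ℤ) : ℝ := max 0 (1 - |(n : ℝ)| / R)

theorem LBall_fej_nonneg (R : ℕ) (n : ℤ) : 0 ≤ fej R n := le_max_left _ _

theorem LBall_fej_neg (R : ℕ) (n : ℤ) : fej R (-n) = fej R n := by
  unfold fej
  rw [Int.cast_neg, abs_neg]

theorem LBall_fej_eq (R : ℕ) (hR : 1 ≤ R) (n : ℤ) (hn : n ∈ Finset.Icc (-(R : ℤ)) R) :
    (R : ℝ) * fej R n = R - |(n : ℝ)| := by
  rw [Finset.mem_Icc] at hn
  have hR' : (0 : ℝ) < R := by exact_mod_cast hR
  have h1 : |(n : ℝ)| ≤ R := by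
    rw [abs_le]
    constructor
    · exact_mod_cast hn.1
    · exact_mod_cast hn.2
  have h2 : |(n : ℝ)| / R ≤ 1 := (div_le_one hR').2 h1
  unfold fej
  rw [max_eq_right (by linarith)]
  field_simp

theorem LBall_fej_zero (R : ℕ) (hR : 1 ≤ R) (n : ℤ) (hn : n ∉ Finset.Icc (-(R : ℤ)) R) :
    fej R n = 0 := by
  rw [Finset.mem_Icc] at hn
  have hR' : (0 : ℝ) < R := by exact_mod_cast hR
  have h1 : (R : ℝ) ≤ |(n : ℝ)| := by
    by_contra h
    rw [not_le, abs_lt] at h
    apply hn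
    constructor
    · have := h.1.le
      exact_mod_cast this
    · have := h.2.le
      exact_mod_cast this
  have h2 : 1 ≤ |(n : ℝ)| / R := (one_le_div hR').2 h1
  unfold fej
  exact max_eq_left (by linarith)

/-- counting the pairs with a given difference -/
theorem LBall_pairs (g : ℤ → ℝ) (R : ℕ) :
    ∑ j ∈ Finset.range R, ∑ l ∈ Finset.range R, g ((j : ℤ) - l) =
      ∑ n ∈ Finset.Icc (-(R : ℤ)) R, ((R : ℝ) - |(n : ℝ)|) * g n := by
  induction R with
  | zero => simp
  | succ R ih =>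
    -- left side
    have hL : ∑ j ∈ Finset.range (R + 1), ∑ l ∈ Finset.range (R + 1), g ((j : ℤ) - l) =
        ∑ j ∈ Finset.range R, ∑ l ∈ Finset.range R, g ((j : ℤ) - l) +
          ∑ n ∈ Finset.Icc (-(R : ℤ)) R, g n := by
      rw [Finset.sum_range_succ, Finset.sum_congr rfl fun j _ => Finset.sum_range_succ _ R,
        Finset.sum_add_distrib, add_assoc]
      congr 1
      have h1 : ∑ j ∈ Finset.range R, g ((j : ℤ) - R) = ∑ n ∈ Finset.Ico (-(R : ℤ)) 0, g n := by
        refine Finset.sum_bij (fun j _ => (j : ℤ) - R) ?_ ?_ ?_ ?_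
        · intro j hj
          rw [Finset.mem_range] at hj
          rw [Finset.mem_Ico]
          omega
        · intro a _ b _ hab
          omega
        · intro n hn
          rw [Finset.mem_Ico] at hn
          exact ⟨(n + R).toNat, by rw [Finset.mem_range]; omega, by omega⟩
        · intro j _
          rfl
      have h2 : ∑ l ∈ Finset.range (R + 1), g ((R : ℤ) - l) =
          ∑ n ∈ Finset.Icc (0 : ℤ) R, g n := by
        refine Finset.sum_bij (fun l _ => (R : ℤ) - l) ?_ ?_ ?_ ?_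
        · intro j hj
          rw [Finset.mem_range] at hj
          rw [Finset.mem_Icc]
          omega
        · intro a _ b _ hab
          omega
        · intro n hn
          rw [Finset.mem_Icc] at hn
          exact ⟨(R - n).toNat, by rw [Finset.mem_range]; omega, by omega⟩
        · intro j _
          rfl
      rw [h1, h2]
      rw [← Finset.sum_union]
      · apply Finset.sum_congr _ fun _ _ => rfl
        ext n
        rw [Finset.mem_union, Finset.mem_Ico, Finset.mem_Icc, Finset.mem_Icc]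
        omega
      · rw [Finset.disjoint_left]
        intro n h3 h4
        rw [Finset.mem_Ico] at h3
        rw [Finset.mem_Icc] at h4
        omega
    rw [hL, ih]
    -- right side
    have hsub : Finset.Icc (-(R : ℤ)) R ⊆ Finset.Icc (-((R + 1 : ℕ) : ℤ)) ((R + 1 : ℕ) : ℤ) := by
      intro n hn
      rw [Finset.mem_Icc] at hn ⊢
      push_cast
      omega
    rw [← Finset.sum_add_distrib, ← Finset.sum_subset hsub]
    · apply Finset.sum_congr rfl
      intro n _
      push_cast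
      ring
    · intro n hn hn'
      rw [Finset.mem_Icc] at hn hn'
      push_cast at hn
      have h3 : n = R + 1 ∨ n = -(R + 1) := by omega
      have h4 : ((R + 1 : ℕ) : ℝ) - |(n : ℝ)| = 0 := by
        have h5 : (0 : ℝ) ≤ (R : ℝ) + 1 := by positivity
        rcases h3 with rfl | rfl
        · push_cast
          rw [abs_of_nonneg h5]
          ring
        · push_cast
          rw [abs_neg, abs_of_nonneg h5]
          ring
      rw [h4, zero_mul]

/-- its transform is nonnegative, has mean one and is at most `R` -/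
theorem fej_facts (R : ℕ) (hR : 1 ≤ R) : ∃ F : ℝ → ℝ, Continuous F ∧ (∀ t, 0 ≤ F t) ∧
    (∀ t, F t ≤ R) ∧ (∀ t, F (-t) = F t) ∧ ∫ t, F t ∂circ = 1 ∧
    ∀ t, F t = ∑ n ∈ Finset.Icc (-(R : ℤ)) R, fej R n * Real.cos (t * n) := by
  have hR' : (0 : ℝ) < R := by exact_mod_cast hR
  set F : ℝ → ℝ := fun t => ∑ n ∈ Finset.Icc (-(R : ℤ)) R, fej R n * Real.cos (t * n) with hF
  have hcont : Continuous F := by
    apply continuous_finsetSum
    intro n _
    exact continuous_const.mul (Real.continuous_cos.comp (continuous_id.mul continuous_const))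
  -- double sum formula
  have h1 : ∀ t, (R : ℝ) * F t = ∑ j ∈ Finset.range R, ∑ l ∈ Finset.range R,
      Real.cos (t * ((j : ℤ) - (l : ℤ) : ℤ)) := by
    intro t
    rw [LBall_pairs (fun n => Real.cos (t * n)) R, hF, Finset.mul_sum]
    apply Finset.sum_congr rfl
    intro n hn
    rw [← mul_assoc, LBall_fej_eq R hR n hn]
  have h2 : ∀ t, (R : ℝ) * F t = (∑ j ∈ Finset.range R, Real.cos (t * j)) ^ 2 +
      (∑ j ∈ Finset.range R, Real.sin (t * j)) ^ 2 := by
    intro t
    rw [h1, sq, sq, Finset.sum_mul_sum, Finset.sum_mul_sum, ← Finset.sum_add_distrib]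
    apply Finset.sum_congr rfl
    intro j _
    rw [← Finset.sum_add_distrib]
    apply Finset.sum_congr rfl
    intro l _
    rw [← Real.cos_sub]
    congr 1
    push_cast
    ring
  refine ⟨F, hcont, ?_, ?_, ?_, ?_, fun t => rfl⟩
  · intro t
    have h3 : 0 ≤ (R : ℝ) * F t := by rw [h2]; positivity
    exact nonneg_of_mul_nonneg_right h3 hR'
  · intro t
    have h3 : (R : ℝ) * F t ≤ R * R := by
      rw [h1]
      calc _ ≤ ∑ j ∈ Finset.range R, ∑ l ∈ Finset.range R, (1 : ℝ) :=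
            Finset.sum_le_sum fun j _ => Finset.sum_le_sum fun l _ => Real.cos_le_one _
        _ = R * R := by simp
    exact le_of_mul_le_mul_left h3 hR'
  · intro t
    simp only [hF]
    apply Finset.sum_congr rfl
    intro n _
    rw [neg_mul, Real.cos_neg]
  · simp only [hF]
    rw [integral_finsetSum]
    · simp_rw [integral_const_mul, LBall_int_cos]
      rw [Finset.sum_eq_single 0]
      · simp [fej]
      · intro n _ hn
        rw [if_neg hn, mul_zero]
      · intro h0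
        exfalso
        apply h0
        rw [Finset.mem_Icc]
        omega
    · intro n _
      apply LBall_integrable_circ
      exact continuous_const.mul (Real.continuous_cos.comp (continuous_id.mul continuous_const))

/-- product test function -/
noncomputable def phiT (d R : ℕ) (x : V d) : ℝ := ∏ i, fej R (x i)

/-! ### the transform of the test function -/

theorem LBall_phiT_zero (d R : ℕ) (hR : 1 ≤ R) (x : V d)
    (hx : x ∉ Fintype.piFinset fun _ : Fin d => Finset.Icc (-(R : ℤ)) R) : phiT d R x = 0 := by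
  rw [Fintype.mem_piFinset, not_forall] at hx
  obtain ⟨i, hi⟩ := hx
  exact Finset.prod_eq_zero (Finset.mem_univ i) (LBall_fej_zero R hR _ hi)

theorem LBall_phiT_summable (d R : ℕ) (hR : 1 ≤ R) : Summable (phiT d R) :=
  summable_of_ne_finset_zero (s := Fintype.piFinset fun _ : Fin d => Finset.Icc (-(R : ℤ)) R)
    fun x hx => LBall_phiT_zero d R hR x hx

theorem LBall_cexp (R : ℕ) (t : ℝ) :
    ∑ n ∈ Finset.Icc (-(R : ℤ)) R, (fej R n : ℂ) * Complex.exp (((t * n : ℝ) : ℂ) * Complex.I) =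
      ((∑ n ∈ Finset.Icc (-(R : ℤ)) R, fej R n * Real.cos (t * n) : ℝ) : ℂ) := by
  have hodd : ∑ n ∈ Finset.Icc (-(R : ℤ)) R, fej R n * Real.sin (t * n) = 0 := by
    have h1 : ∑ n ∈ Finset.Icc (-(R : ℤ)) R, fej R n * Real.sin (t * n) =
        ∑ n ∈ Finset.Icc (-(R : ℤ)) R, -(fej R n * Real.sin (t * n)) := by
      refine Finset.sum_bij (fun n _ => -n) ?_ ?_ ?_ ?_
      · intro n hn
        rw [Finset.mem_Icc] at hn ⊢
        omega
      · intro a _ b _ hab
        omega
      · intro n hn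
        rw [Finset.mem_Icc] at hn
        exact ⟨-n, by rw [Finset.mem_Icc]; omega, by omega⟩
      · intro n _
        rw [LBall_fej_neg]
        push_cast
        rw [mul_neg, Real.sin_neg]
        ring
    rw [Finset.sum_neg_distrib] at h1
    linarith
  have h2 : ∀ n ∈ Finset.Icc (-(R : ℤ)) R,
      (fej R n : ℂ) * Complex.exp (((t * n : ℝ) : ℂ) * Complex.I) =
      ((fej R n * Real.cos (t * n) : ℝ) : ℂ) + ((fej R n * Real.sin (t * n) : ℝ) : ℂ) * Complex.I := by
    intro n _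
    rw [Complex.exp_mul_I, ← Complex.ofReal_cos, ← Complex.ofReal_sin]
    push_cast
    ring
  rw [Finset.sum_congr rfl h2, Finset.sum_add_distrib, ← Finset.sum_mul, ← Complex.ofReal_sum,
    ← Complex.ofReal_sum, hodd]
  simp

theorem LBall_ct_phiT (d R : ℕ) (hR : 1 ≤ R) (k : Fin d → ℝ) :
    ct (phiT d R) k = ∏ i, ∑ n ∈ Finset.Icc (-(R : ℤ)) R, fej R n * Real.cos (k i * n) := by
  have h1 : ct (phiT d R) k = ∑ x ∈ Fintype.piFinset fun _ : Fin d => Finset.Icc (-(R : ℤ)) R,
      phiT d R x * Real.cos (dotk k x) := by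
    unfold ct
    rw [tsum_eq_sum]
    intro x hx
    rw [LBall_phiT_zero d R hR x hx, zero_mul]
  have h2 : ((∏ i, ∑ n ∈ Finset.Icc (-(R : ℤ)) R, fej R n * Real.cos (k i * n) : ℝ) : ℂ) =
      ∑ x ∈ Fintype.piFinset fun _ : Fin d => Finset.Icc (-(R : ℤ)) R,
        (phiT d R x : ℂ) * Complex.exp ((dotk k x : ℂ) * Complex.I) := by
    rw [Complex.ofReal_prod]
    simp_rw [← LBall_cexp]
    rw [Finset.prod_univ_sum]
    apply Finset.sum_congr rfl
    intro x _
    rw [Finset.prod_mul_distrib, ← Complex.exp_sum, ← Finset.sum_mul]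
    unfold phiT dotk
    push_cast
    rfl
  have h3 := congrArg Complex.re h2
  rw [Complex.ofReal_re, Complex.re_sum] at h3
  rw [h1, h3]
  apply Finset.sum_congr rfl
  intro x _
  rw [Complex.re_ofReal_mul, Complex.exp_ofReal_mul_I_re]

/-! ### the integral near the origin -/

theorem LBall_int_rpow {u a : ℝ} (hu : u < 1) (ha : 0 < a) :
    IntegrableOn (fun t : ℝ => |t| ^ (-u)) (Ioc (-a) a) ∧
      ∫ t in Ioc (-a) a, |t| ^ (-u) = 2 * (a ^ (1 - u) / (1 - u)) := by
  have h1 : IntervalIntegrable (fun t : ℝ => |t| ^ (-u)) volume 0 a := by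
    refine (intervalIntegral.intervalIntegrable_rpow' (r := -u) (by linarith)).congr_uIoo ?_
    intro t ht
    rw [uIoo_of_le ha.le] at ht
    simp only [abs_of_pos ht.1]
  have h2 : IntervalIntegrable (fun t : ℝ => |t| ^ (-u)) volume (-a) 0 := by
    have h3 := (IntervalIntegrable.iff_comp_neg (f := fun t : ℝ => |t| ^ (-u)) (a := 0) (b := a)).1 h1
    simp only [abs_neg, neg_zero] at h3
    exact h3.symm
  have h4 : ∫ t in (0 : ℝ)..a, |t| ^ (-u) = a ^ (1 - u) / (1 - u) := by
    have h5 : ∫ t in (0 : ℝ)..a, |t| ^ (-u) = ∫ t in (0 : ℝ)..a, t ^ (-u) := by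
      apply intervalIntegral.integral_congr
      intro t ht
      rw [uIcc_of_le ha.le] at ht
      simp only [abs_of_nonneg ht.1]
    rw [h5, integral_rpow (Or.inl (by linarith)), show -u + 1 = 1 - u by ring,
      Real.zero_rpow (by linarith), sub_zero]
  have h6 : ∫ t in (-a)..(0 : ℝ), |t| ^ (-u) = a ^ (1 - u) / (1 - u) := by
    rw [← h4]
    have := intervalIntegral.integral_comp_neg (a := 0) (b := a) (fun t : ℝ => |t| ^ (-u))
    simp only [abs_neg, neg_zero] at this
    rw [this]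
  have h7 := h2.trans h1
  constructor
  · rwa [intervalIntegrable_iff_integrableOn_Ioc_of_le (by linarith)] at h7
  · rw [← intervalIntegral.integral_of_le (by linarith),
      ← intervalIntegral.integral_add_adjacent_intervals h2 h1, h4, h6]
    ring

theorem LBall_one (R : ℕ) (hR : 1 ≤ R) (F : ℝ → ℝ) (hFc : Continuous F) (hF0 : ∀ t, 0 ≤ F t)
    (hFR : ∀ t, F t ≤ R) (hF1 : ∫ t, F t ∂circ = 1) {u : ℝ} (hu0 : 0 ≤ u) (hu : u ≤ 1 / 2) :
    Integrable (fun t => F t * |t| ^ (-u)) circ ∧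
      ∫ t, F t * |t| ^ (-u) ∂circ ≤ 2 * (R : ℝ) ^ u := by
  have hpi := Real.pi_pos
  have hpi3 := Real.pi_gt_three
  have hR' : (1 : ℝ) ≤ R := by exact_mod_cast hR
  have hR0 : (0 : ℝ) < R := by linarith
  set a : ℝ := 1 / R with ha
  have ha0 : 0 < a := by positivity
  have ha1 : a ≤ 1 := by rw [ha, div_le_one hR0]; exact hR'
  obtain ⟨hi1, hi2⟩ := LBall_int_rpow (u := u) (by linarith) ha0
  set g : ℝ → ℝ := fun t => (R : ℝ) * |t| ^ (-u) with hg
  have hgi : IntegrableOn g (Ioc (-a) a) := hi1.const_mul _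
  have hIndc : Integrable ((Ioc (-a) a).indicator g) circ := by
    unfold circ
    refine Integrable.smul_measure ?_ ENNReal.ofReal_ne_top
    rw [integrable_indicator_iff measurableSet_Ioc]
    exact hgi.mono_measure Measure.restrict_le_self
  have hInd : ∫ t, (Ioc (-a) a).indicator g t ∂circ ≤ (R : ℝ) ^ u := by
    unfold circ
    rw [integral_smul_measure, ENNReal.toReal_ofReal (by positivity),
      setIntegral_indicator measurableSet_Ioc]
    have hcap : Ioc (-Real.pi) Real.pi ∩ Ioc (-a) a = Ioc (-a) a := by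
      rw [inter_eq_right]
      exact Ioc_subset_Ioc (by linarith) (by linarith)
    rw [hcap, hg, integral_const_mul, hi2, smul_eq_mul]
    have h1 : (R : ℝ) * a ^ (1 - u) = (R : ℝ) ^ u := by
      rw [ha, one_div, Real.inv_rpow hR0.le, ← Real.rpow_neg hR0.le]
      nth_rewrite 1 [← Real.rpow_one (R : ℝ)]
      rw [← Real.rpow_add hR0]
      congr 1
      ring
    have h2 : 1 / (2 * Real.pi) * ((R : ℝ) * (2 * (a ^ (1 - u) / (1 - u)))) =
        ((R : ℝ) * a ^ (1 - u)) / (Real.pi * (1 - u)) := by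
      have : 1 - u ≠ 0 := by linarith
      field_simp
    rw [h2, h1]
    apply div_le_self (by positivity)
    nlinarith
  have hbound : ∀ t, F t * |t| ^ (-u) ≤ (Ioc (-a) a).indicator g t + (R : ℝ) ^ u * F t := by
    intro t
    by_cases ht : t ∈ Ioc (-a) a
    · rw [indicator_of_mem ht, hg]
      have h1 : F t * |t| ^ (-u) ≤ R * |t| ^ (-u) :=
        mul_le_mul_of_nonneg_right (hFR t) (Real.rpow_nonneg (abs_nonneg _) _)
      have h2 : 0 ≤ (R : ℝ) ^ u * F t := mul_nonneg (by positivity) (hF0 t)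
      linarith
    · rw [indicator_of_notMem ht, zero_add]
      have h1 : a ≤ |t| := by
        by_contra h
        rw [not_le, abs_lt] at h
        exact ht ⟨h.1, h.2.le⟩
      have h2 : |t| ^ (-u) ≤ a ^ (-u) :=
        Real.rpow_le_rpow_of_nonpos ha0 h1 (by linarith)
      have h3 : a ^ (-u) = (R : ℝ) ^ u := by
        rw [ha, one_div, Real.inv_rpow hR0.le, Real.rpow_neg hR0.le, inv_inv]
      rw [h3] at h2
      calc F t * |t| ^ (-u) ≤ F t * (R : ℝ) ^ u := mul_le_mul_of_nonneg_left h2 (hF0 t)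
        _ = (R : ℝ) ^ u * F t := mul_comm _ _
  have hFi : Integrable F circ := LBall_integrable_circ hFc
  have hBi : Integrable (fun t => (Ioc (-a) a).indicator g t + (R : ℝ) ^ u * F t) circ :=
    hIndc.add (hFi.const_mul _)
  have hnn : ∀ t, 0 ≤ F t * |t| ^ (-u) := fun t =>
    mul_nonneg (hF0 t) (Real.rpow_nonneg (abs_nonneg _) _)
  have hmeas : AEStronglyMeasurable (fun t => F t * |t| ^ (-u)) circ := by
    apply Measurable.aestronglyMeasurable
    exact hFc.measurable.mul ((measurable_id.abs).pow_const _)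
  have hint : Integrable (fun t => F t * |t| ^ (-u)) circ := by
    refine hBi.mono' hmeas (Filter.Eventually.of_forall fun t => ?_)
    rw [Real.norm_eq_abs, abs_of_nonneg (hnn t)]
    exact hbound t
  refine ⟨hint, ?_⟩
  calc ∫ t, F t * |t| ^ (-u) ∂circ
      ≤ ∫ t, (Ioc (-a) a).indicator g t + (R : ℝ) ^ u * F t ∂circ :=
        integral_mono hint hBi hbound
    _ = ∫ t, (Ioc (-a) a).indicator g t ∂circ + (R : ℝ) ^ u * 1 := by
        rw [integral_add hIndc (hFi.const_mul _), integral_const_mul, hF1]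
    _ ≤ 2 * (R : ℝ) ^ u := by linarith

/-! ### arithmetic-geometric mean -/

theorem LBall_ae_circ : ∀ᵐ t ∂circ, t ≠ 0 ∧ |t| ≤ Real.pi := by
  unfold circ
  apply Measure.ae_smul_measure
  rw [ae_restrict_iff' measurableSet_Ioc]
  have h0 : ∀ᵐ t : ℝ, t ≠ 0 := Measure.ae_ne volume 0
  filter_upwards [h0] with t ht hmem
  exact ⟨ht, abs_le.2 ⟨hmem.1.le, hmem.2⟩⟩

theorem LBall_ae_muT (d : ℕ) : ∀ᵐ k ∂muT d, ∀ i, k i ≠ 0 ∧ |k i| ≤ Real.pi := by
  rw [Filter.eventually_all]
  intro i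
  exact (Measure.tendsto_eval_ae_ae (μ := fun _ : Fin d => circ) (i := i)).eventually LBall_ae_circ

theorem LBall_amgm (d : ℕ) (hd : 1 ≤ d) (k : Fin d → ℝ)
    (hk : ∀ i, k i ≠ 0 ∧ |k i| ≤ Real.pi) :
    (1 - Dh k)⁻¹ ≤ Real.pi ^ 2 / 2 * ∏ i, |k i| ^ (-(2 / (d : ℝ))) := by
  have hpi := Real.pi_pos
  have hd' : (0 : ℝ) < d := by exact_mod_cast hd
  have h1 : ∏ i : Fin d, (k i ^ 2) ^ (1 / (d : ℝ)) ≤ ∑ i : Fin d, (1 / (d : ℝ)) * k i ^ 2 := by
    apply Real.geom_mean_le_arith_mean_weighted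
    · intro i _; positivity
    · simp only [Finset.sum_const, Finset.card_univ, Fintype.card_fin, nsmul_eq_mul]
      field_simp
    · intro i _; positivity
  have h2 : ∀ i : Fin d, (k i ^ 2) ^ (1 / (d : ℝ)) = |k i| ^ (2 / (d : ℝ)) := by
    intro i
    rw [← sq_abs, ← Real.rpow_natCast, ← Real.rpow_mul (abs_nonneg _)]
    congr 1
    push_cast
    ring
  simp_rw [h2] at h1
  set Pr := ∏ i : Fin d, |k i| ^ (2 / (d : ℝ)) with hPr
  have hPr0 : 0 < Pr := Finset.prod_pos fun i _ => Real.rpow_pos_of_pos (abs_pos.2 (hk i).1) _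
  have h3 : 2 / Real.pi ^ 2 * Pr ≤ 1 - Dh k := by
    have h4 : ∑ i : Fin d, Real.cos (k i) ≤ ∑ i : Fin d, (1 - 2 / Real.pi ^ 2 * k i ^ 2) :=
      Finset.sum_le_sum fun i _ => Real.cos_le_one_sub_mul_cos_sq (hk i).2
    rw [Finset.sum_sub_distrib, ← Finset.mul_sum] at h4
    simp only [Finset.sum_const, Finset.card_univ, Fintype.card_fin, nsmul_eq_mul, mul_one] at h4
    rw [← Finset.mul_sum] at h1
    have h5 : 2 / Real.pi ^ 2 * Pr ≤ 2 / Real.pi ^ 2 * (1 / (d : ℝ) * ∑ i : Fin d, k i ^ 2) :=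
      mul_le_mul_of_nonneg_left h1 (by positivity)
    unfold Dh
    have h6 : (∑ i : Fin d, Real.cos (k i)) / d ≤
        (d - 2 / Real.pi ^ 2 * ∑ i : Fin d, k i ^ 2) / d :=
      div_le_div_of_nonneg_right h4 hd'.le
    have h7 : ((d : ℝ) - 2 / Real.pi ^ 2 * ∑ i : Fin d, k i ^ 2) / d =
        1 - 2 / Real.pi ^ 2 * (1 / (d : ℝ) * ∑ i : Fin d, k i ^ 2) := by
      field_simp
    linarith
  have h8 : ∏ i : Fin d, |k i| ^ (-(2 / (d : ℝ))) = Pr⁻¹ := by
    rw [hPr, ← Finset.prod_inv_distrib]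
    apply Finset.prod_congr rfl
    intro i _
    rw [Real.rpow_neg (abs_nonneg _)]
  rw [h8]
  calc (1 - Dh k)⁻¹ ≤ (2 / Real.pi ^ 2 * Pr)⁻¹ := inv_anti₀ (by positivity) h3
    _ = Real.pi ^ 2 / 2 * Pr⁻¹ := by rw [mul_inv, inv_div]

/-- transform of the test function against the inverse of `1 - Dh` -/
theorem int_phiT (d : ℕ) (hd : 4 ≤ d) : ∃ C > 0, ∀ R : ℕ, 1 ≤ R →
    Summable (phiT d R) ∧ (∀ k, 0 ≤ ct (phiT d R) k) ∧
      Integrable (fun k => ct (phiT d R) k * (1 - Dh k)⁻¹) (muT d) ∧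
      ∫ k, ct (phiT d R) k * (1 - Dh k)⁻¹ ∂muT d ≤ C * (R : ℝ) ^ 2 := by
  have hpi := Real.pi_pos
  have hd' : (4 : ℝ) ≤ d := by exact_mod_cast hd
  refine ⟨Real.pi ^ 2 / 2 * 2 ^ d, by positivity, fun R hR => ?_⟩
  have hR0 : (0 : ℝ) < R := by exact_mod_cast hR
  obtain ⟨F, hFc, hF0, hFR, -, hF1, hFe⟩ := fej_facts R hR
  have hct : ∀ k : Fin d → ℝ, ct (phiT d R) k = ∏ i, F (k i) := by
    intro k
    rw [LBall_ct_phiT d R hR k]
    exact Finset.prod_congr rfl fun i _ => (hFe (k i)).symm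
  have hctn : ∀ k : Fin d → ℝ, 0 ≤ ct (phiT d R) k := by
    intro k
    rw [hct]
    exact Finset.prod_nonneg fun i _ => hF0 _
  set u : ℝ := 2 / (d : ℝ) with hu
  have hu0 : 0 ≤ u := by positivity
  have hu1 : u ≤ 1 / 2 := by
    rw [hu, div_le_div_iff₀ (by linarith) (by norm_num)]
    linarith
  obtain ⟨h1, h2⟩ := LBall_one R hR F hFc hF0 hFR hF1 hu0 hu1
  have hprod : Integrable (fun k : Fin d → ℝ => ∏ i, (F (k i) * |k i| ^ (-u))) (muT d) :=
    Integrable.fintype_prod fun _ => h1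
  have hae : ∀ᵐ k ∂muT d, ct (phiT d R) k * (1 - Dh k)⁻¹ ≤
      Real.pi ^ 2 / 2 * ∏ i, (F (k i) * |k i| ^ (-u)) := by
    filter_upwards [LBall_ae_muT d] with k hk
    have h3 := LBall_amgm d (by omega) k hk
    rw [Finset.prod_mul_distrib, ← hct k]
    calc ct (phiT d R) k * (1 - Dh k)⁻¹
        ≤ ct (phiT d R) k * (Real.pi ^ 2 / 2 * ∏ i, |k i| ^ (-u)) :=
          mul_le_mul_of_nonneg_left h3 (hctn k)
      _ = _ := by ring
  have hnn : ∀ k : Fin d → ℝ, 0 ≤ ct (phiT d R) k * (1 - Dh k)⁻¹ := fun k =>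
    mul_nonneg (hctn k) (inv_nonneg.2 (one_sub_Dh_nonneg k))
  have hmeas : AEStronglyMeasurable (fun k : Fin d → ℝ => ct (phiT d R) k * (1 - Dh k)⁻¹)
      (muT d) := by
    apply Measurable.aestronglyMeasurable
    have e1 : Measurable fun k : Fin d → ℝ => ct (phiT d R) k := by
      simp_rw [hct]
      exact (continuous_finsetProd _ fun i _ => hFc.comp (continuous_apply i)).measurable
    have e2 : Measurable fun k : Fin d → ℝ => (1 - Dh k)⁻¹ :=
      (measurable_const.sub Dh_continuous.measurable).inv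
    exact e1.mul e2
  have hint : Integrable (fun k : Fin d → ℝ => ct (phiT d R) k * (1 - Dh k)⁻¹) (muT d) := by
    refine (hprod.const_mul (Real.pi ^ 2 / 2)).mono' hmeas ?_
    filter_upwards [hae] with k hk
    rwa [Real.norm_eq_abs, abs_of_nonneg (hnn k)]
  refine ⟨LBall_phiT_summable d R hR, hctn, hint, ?_⟩
  calc ∫ k, ct (phiT d R) k * (1 - Dh k)⁻¹ ∂muT d
      ≤ ∫ k : Fin d → ℝ, Real.pi ^ 2 / 2 * ∏ i, (F (k i) * |k i| ^ (-u)) ∂muT d :=
        integral_mono_ae hint (hprod.const_mul _) hae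
    _ = Real.pi ^ 2 / 2 * (∫ t, F t * |t| ^ (-u) ∂circ) ^ d := by
        rw [integral_const_mul]
        congr 1
        unfold muT
        rw [integral_fintype_prod_eq_pow (fun t => F t * |t| ^ (-u)), Fintype.card_fin]
    _ ≤ Real.pi ^ 2 / 2 * (2 * (R : ℝ) ^ u) ^ d := by
        apply mul_le_mul_of_nonneg_left _ (by positivity)
        apply pow_le_pow_left₀ _ h2
        exact integral_nonneg fun t => mul_nonneg (hF0 t) (Real.rpow_nonneg (abs_nonneg _) _)
    _ = Real.pi ^ 2 / 2 * 2 ^ d * (R : ℝ) ^ 2 := by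
        have h4 : ((R : ℝ) ^ u) ^ d = (R : ℝ) ^ 2 := by
          rw [← Real.rpow_natCast, ← Real.rpow_mul hR0.le, ← Real.rpow_natCast]
          congr 1
          rw [hu]
          push_cast
          field_simp
        rw [mul_pow, h4]
        ring

theorem ball_of_IR (d : ℕ) (hd : 4 ≤ d) (K : ℝ) (hK : 0 ≤ K) : ∃ C > 0, ∀ p : ℝ, ExpDec d p →
    IR K d p → ∀ r : ℕ, 1 ≤ r → ∀ F : Finset (V d), (∀ x ∈ F, ‖x‖ ≤ r) →
      ∑ x ∈ F, tau p x ≤ C * (r : ℝ) ^ 2 := by
  obtain ⟨C0, hC0, hC⟩ := int_phiT d hd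
  refine ⟨(4 / 3) ^ d * ((K + 1) * (C0 * 16)), by positivity, fun p hdec hIR r hr F hF => ?_⟩
  have hr0 : (0 : ℝ) < r := by exact_mod_cast hr
  obtain ⟨hs, hctn, hint, hle⟩ := hC (4 * r) (by omega)
  have hts := tau_summable hdec
  -- the test function is bounded below on the ball
  have hphi : ∀ x ∈ F, (3 / 4 : ℝ) ^ d ≤ phiT d (4 * r) x := by
    intro x hx
    unfold phiT
    have h1 : ∀ i, (3 / 4 : ℝ) ≤ fej (4 * r) (x i) := by
      intro i
      unfold fej
      refine le_trans ?_ (le_max_right _ _)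
      have h2 : |(x i : ℝ)| ≤ r := by
        have h3 := (norm_le_pi_norm x i).trans (hF x hx)
        rwa [Int.norm_eq_abs] at h3
      have h4 : |(x i : ℝ)| / ((4 * r : ℕ) : ℝ) ≤ 1 / 4 := by
        push_cast
        rw [div_le_div_iff₀ (by positivity) (by norm_num)]
        linarith
      linarith
    calc (3 / 4 : ℝ) ^ d = ∏ _i : Fin d, (3 / 4 : ℝ) := by
          rw [Finset.prod_const, Finset.card_univ, Fintype.card_fin]
      _ ≤ ∏ i, fej (4 * r) (x i) := Finset.prod_le_prod (fun _ _ => by norm_num) fun i _ => h1 i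
  have hphi0 : ∀ x, 0 ≤ phiT d (4 * r) x := fun x =>
    Finset.prod_nonneg fun i _ => LBall_fej_nonneg _ _
  have hphi1 : ∀ x, phiT d (4 * r) x ≤ 1 := by
    intro x
    unfold phiT
    refine Finset.prod_le_one (fun i _ => LBall_fej_nonneg _ _) fun i _ => ?_
    unfold fej
    refine max_le zero_le_one ?_
    have : 0 ≤ |(x i : ℝ)| / ((4 * r : ℕ) : ℝ) := by positivity
    linarith
  have hprodS : Summable fun x => tau p x * phiT d (4 * r) x := by
    refine Summable.of_nonneg_of_le (fun x => mul_nonneg (tau_nonneg p x) (hphi0 x)) (fun x => ?_) hts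
    exact mul_le_of_le_one_right (tau_nonneg p x) (hphi1 x)
  have h5 : (3 / 4 : ℝ) ^ d * ∑ x ∈ F, tau p x ≤ ∑' x, tau p x * phiT d (4 * r) x := by
    rw [Finset.mul_sum]
    calc ∑ x ∈ F, (3 / 4 : ℝ) ^ d * tau p x ≤ ∑ x ∈ F, tau p x * phiT d (4 * r) x := by
          refine Finset.sum_le_sum fun x hx => ?_
          rw [mul_comm]
          exact mul_le_mul_of_nonneg_left (hphi x hx) (tau_nonneg p x)
      _ ≤ _ := hprodS.sum_le_tsum F fun x _ => mul_nonneg (tau_nonneg p x) (hphi0 x)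
  rw [parseval hts (tau_neg p) hs] at h5
  have h6 : ∫ k, ct (tau p) k * ct (phiT d (4 * r)) k ∂muT d ≤
      ∫ k, K * (ct (phiT d (4 * r)) k * (1 - Dh k)⁻¹) ∂muT d := by
    have hcc : Integrable (fun k => ct (tau p) k * ct (phiT d (4 * r)) k) (muT d) := by
      refine (ct_integrable hts).mul_bdd (c := ∑' x, |phiT d (4 * r) x|)
        (ct_continuous hs).aestronglyMeasurable (Filter.Eventually.of_forall fun k => ?_)
      rw [Real.norm_eq_abs]
      exact abs_ct_le hs k
    refine integral_mono_ae hcc (hint.const_mul K) ?_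
    filter_upwards [Dh_lt_one_ae (d := d) (by omega)] with k hk
    have h7 : ct (tau p) k ≤ K * (1 - Dh k)⁻¹ := by
      rw [← div_eq_mul_inv, le_div_iff₀ (by linarith)]
      exact (hIR k).2
    calc ct (tau p) k * ct (phiT d (4 * r)) k
        ≤ (K * (1 - Dh k)⁻¹) * ct (phiT d (4 * r)) k := mul_le_mul_of_nonneg_right h7 (hctn k)
      _ = K * (ct (phiT d (4 * r)) k * (1 - Dh k)⁻¹) := by ring
  rw [integral_const_mul] at h6
  have h8 : (3 / 4 : ℝ) ^ d * ∑ x ∈ F, tau p x ≤ K * (C0 * ((4 * r : ℕ) : ℝ) ^ 2) :=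
    h5.trans (h6.trans (mul_le_mul_of_nonneg_left hle hK))
  have h9 : (4 / 3 : ℝ) ^ d * (3 / 4 : ℝ) ^ d = 1 := by
    rw [← mul_pow]; norm_num
  calc ∑ x ∈ F, tau p x = (4 / 3 : ℝ) ^ d * ((3 / 4 : ℝ) ^ d * ∑ x ∈ F, tau p x) := by
        rw [← mul_assoc, h9, one_mul]
    _ ≤ (4 / 3 : ℝ) ^ d * (K * (C0 * ((4 * r : ℕ) : ℝ) ^ 2)) :=
        mul_le_mul_of_nonneg_left h8 (by positivity)
    _ ≤ (4 / 3) ^ d * ((K + 1) * (C0 * 16)) * (r : ℝ) ^ 2 := by
        push_cast
        have h10 : (0 : ℝ) ≤ (4 / 3) ^ d * (C0 * 16) * (r : ℝ) ^ 2 := by positivity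
        nlinarith

end Pool.Agent.helper55.FP
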