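import Pool.Agent.helper90.FP.LIR

/-!
# FP project, part L2, module LBoot: the bootstrap
-/

set_option autoImplicit false

open MeasureTheory Set

namespace Pool.Agent.helper55.FP

theorem LBoot_pow {a b X : ℝ} (ha : 0 ≤ a) (hab : a ≤ b) (hb : b ≤ X) :
    b ^ 8 - a ^ 8 ≤ 8 * X ^ 7 * (b - a) := by
  have hX : 0 ≤ X := ha.trans (hab.trans hb)
  have hb0 : 0 ≤ b := ha.trans hab
  have e : b ^ 8 - a ^ 8 = (b + a) * (b ^ 2 + a ^ 2) * (b ^ 4 + a ^ 4) * (b - a) := by ring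
  rw [e]
  have h1 : b + a ≤ 2 * X := by linarith
  have h2 : b ^ 2 + a ^ 2 ≤ 2 * X ^ 2 := by
    have := pow_le_pow_left₀ hb0 hb 2
    have := pow_le_pow_left₀ ha (hab.trans hb) 2
    linarith
  have h4 : b ^ 4 + a ^ 4 ≤ 2 * X ^ 4 := by
    have := pow_le_pow_left₀ hb0 hb 4
    have := pow_le_pow_left₀ ha (hab.trans hb) 4
    linarith
  have h5 : (b + a) * (b ^ 2 + a ^ 2) * (b ^ 4 + a ^ 4) ≤ (2 * X) * (2 * X ^ 2) * (2 * X ^ 4) := by
    refine mul_le_mul (mul_le_mul h1 h2 (by positivity) (by positivity)) h4 (by positivity)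
      (by positivity)
  calc (b + a) * (b ^ 2 + a ^ 2) * (b ^ 4 + a ^ 4) * (b - a)
      ≤ (2 * X) * (2 * X ^ 2) * (2 * X ^ 4) * (b - a) :=
        mul_le_mul_of_nonneg_right h5 (by linarith)
    _ = 8 * X ^ 7 * (b - a) := by ring

/-- local uniform continuity of `s(p) = sup_x (pJ * tau^{*8})(x)` -/
theorem s_cont {d : ℕ} {p₁ : ℝ} (hp₁ : p₁ ≤ 1) (hdec : ExpDec d p₁) :
    ∃ L : ℝ, 0 ≤ L ∧ ∀ p q : ℝ, 0 ≤ p → p ≤ q → q ≤ p₁ → ∀ x : V d,
      conv (pJ q) (cpow (tau q) 8) x ≤ conv (pJ p) (cpow (tau p) 8) x + L * (q - p) := by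
  set X : ℝ := chi d p₁ with hX
  have hX1 : 1 ≤ X := one_le_chi hdec
  refine ⟨2 * d * (X ^ 8 + 8 * X ^ 7 * (2 * d * (X * X))), by positivity, ?_⟩
  intro p q hp hpq hq x
  have hdq : ExpDec d q := hdec.mono hq
  have hdp : ExpDec d p := hdq.mono hpq
  have hq0 : 0 ≤ q := hp.trans hpq
  have hq1 : q ≤ 1 := hq.trans hp₁
  have hτq : Summable (tau q : V d → ℝ) := tau_summable hdq
  have hτp : Summable (tau p : V d → ℝ) := tau_summable hdp
  set fq : V d → ℝ := conv (pJ q) (cpow (tau q) 8) with hfq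
  set fp : V d → ℝ := conv (pJ p) (cpow (tau p) 8) with hfp
  have hsq : Summable fq := conv_summable (pJ_summable q) (cpow_summable hτq 8)
  have hsp : Summable fp := conv_summable (pJ_summable p) (cpow_summable hτp 8)
  have hpJ : ∀ y : V d, pJ p y ≤ pJ q y := by
    intro y
    unfold pJ
    split_ifs
    · exact hpq
    · exact le_rfl
  have hle : ∀ y, fp y ≤ fq y := fun y =>
    conv_mono (pJ_summable q) (cpow_summable hτq 8) (pJ_nonneg hp)
      (cpow_nonneg (tau_nonneg p) 8) hpJ (cpow_mono hτq (tau_nonneg p) (tau_mono hpq) 8) y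
  have hone : fq x - fp x ≤ ∑' y, (fq y - fp y) :=
    (hsq.sub hsp).le_tsum x (fun y _ => sub_nonneg.2 (hle y))
  have htot : ∑' y, (fq y - fp y) = 2 * d * q * chi d q ^ 8 - 2 * d * p * chi d p ^ 8 := by
    rw [hsq.tsum_sub hsp, hfq, hfp, tsum_conv (pJ_summable q) (cpow_summable hτq 8),
      tsum_conv (pJ_summable p) (cpow_summable hτp 8), tsum_cpow hτq, tsum_cpow hτp, tsum_pJ,
      tsum_pJ]
    rfl
  have hcq : chi d q ≤ X := chi_mono hdec hq
  have hcp : chi d p ≤ chi d q := chi_mono hdq hpq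
  have hcp1 : 1 ≤ chi d p := one_le_chi hdp
  have hcp0 : 0 ≤ chi d p := by linarith
  have hcq0 : 0 ≤ chi d q := by linarith
  have h8 := LBoot_pow hcp0 hcp hcq
  have hdiff : chi d q - chi d p ≤ 2 * d * (X * X) * (q - p) := by
    have h1 := chi_diff hp hpq hq1 hdq
    have h2 : chi d p * chi d q ≤ X * X := mul_le_mul (hcp.trans hcq) hcq hcq0 (by linarith)
    calc chi d q - chi d p ≤ 2 * d * (q - p) * chi d p * chi d q := h1
      _ = 2 * d * (q - p) * (chi d p * chi d q) := by ring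
      _ ≤ 2 * d * (q - p) * (X * X) :=
          mul_le_mul_of_nonneg_left h2 (mul_nonneg (by positivity) (by linarith))
      _ = 2 * d * (X * X) * (q - p) := by ring
  have hX0 : 0 ≤ X := by linarith
  have h9 : chi d q ^ 8 - chi d p ^ 8 ≤ 8 * X ^ 7 * (2 * d * (X * X)) * (q - p) := by
    calc chi d q ^ 8 - chi d p ^ 8 ≤ 8 * X ^ 7 * (chi d q - chi d p) := h8
      _ ≤ 8 * X ^ 7 * (2 * d * (X * X) * (q - p)) :=
          mul_le_mul_of_nonneg_left hdiff (by positivity)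
      _ = 8 * X ^ 7 * (2 * d * (X * X)) * (q - p) := by ring
  have h9' : 0 ≤ chi d q ^ 8 - chi d p ^ 8 := sub_nonneg.2 (pow_le_pow_left₀ hcp0 hcp 8)
  have h10 : q * chi d q ^ 8 - p * chi d p ^ 8 ≤
      (X ^ 8 + 8 * X ^ 7 * (2 * d * (X * X))) * (q - p) := by
    have e : q * chi d q ^ 8 - p * chi d p ^ 8 =
        (q - p) * chi d q ^ 8 + p * (chi d q ^ 8 - chi d p ^ 8) := by ring
    have e1 : (q - p) * chi d q ^ 8 ≤ (q - p) * X ^ 8 :=
      mul_le_mul_of_nonneg_left (pow_le_pow_left₀ hcq0 hcq 8) (by linarith)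
    have e2 : p * (chi d q ^ 8 - chi d p ^ 8) ≤ 1 * (chi d q ^ 8 - chi d p ^ 8) :=
      mul_le_mul_of_nonneg_right (by linarith) h9'
    rw [e]
    linarith
  have h11 : 2 * d * q * chi d q ^ 8 - 2 * d * p * chi d p ^ 8 ≤
      2 * d * (X ^ 8 + 8 * X ^ 7 * (2 * d * (X * X))) * (q - p) := by
    calc 2 * d * q * chi d q ^ 8 - 2 * d * p * chi d p ^ 8
        = 2 * d * (q * chi d q ^ 8 - p * chi d p ^ 8) := by ring
      _ ≤ 2 * d * ((X ^ 8 + 8 * X ^ 7 * (2 * d * (X * X))) * (q - p)) :=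
          mul_le_mul_of_nonneg_left h10 (by positivity)
      _ = 2 * d * (X ^ 8 + 8 * X ^ 7 * (2 * d * (X * X))) * (q - p) := by ring
  linarith

theorem LBoot_mono {d : ℕ} {p ε ε' : ℝ} {Q : V d → ℝ} (h : LacePi d p ε Q) (hε : ε ≤ ε') :
    LacePi d p ε' Q := ⟨h.summable, h.sum_le.trans hε, h.eqn⟩

/-- one round of the bootstrap -/
theorem LBoot_round {C σ : ℝ}
    (h1 : ∀ (d : ℕ) (p s : ℝ), 1 ≤ d → 0 ≤ p → p ≤ 1 → ExpDec d p →
      (∀ x : V d, conv (pJ p) (cpow (tau p) 8) x ≤ s) → C * s ≤ 1 →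
        ∃ Q : V d → ℝ, LacePi d p (C * s) Q) (hCσ : C * σ ≤ 1 / 32)
    {d : ℕ} (hd : 64 ≤ d) (hbig : 2 * (3 ^ 8 * Real.exp 32 / Real.sqrt (2 * d)) ≤ σ / 2)
    {p : ℝ} (hp : 0 ≤ p) (hp1 : p ≤ 1) (hdec : ExpDec d p)
    (hs : ∀ x : V d, conv (pJ p) (cpow (tau p) 8) x ≤ σ) :
    (∀ x : V d, conv (pJ p) (cpow (tau p) 8) x ≤ σ / 2) ∧
      ∃ Q : V d → ℝ, LacePi d p (C * σ) Q ∧ PermInv Q := by
  obtain ⟨Q₀, hQ₀⟩ := h1 d p σ (by omega) hp hp1 hdec hs (by linarith)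
  obtain ⟨Q, hQ, hP⟩ := hQ₀.symmetrize hdec
  obtain ⟨hir, ha, -⟩ := infrared (by omega) hp hdec hQ hP hCσ
  refine ⟨fun x => ?_, Q, hQ, hP⟩
  have h2 := conv_pJ_cpow_le_of_IR (by norm_num) hp hdec hir (by omega) 8 (by omega) x
  have ha0 : 0 ≤ 2 * (d : ℝ) * p := by positivity
  have ha2 : 2 * (d : ℝ) * p ≤ 2 := by nlinarith
  refine h2.trans (le_trans ?_ hbig)
  have e : (4 : ℝ) * ((8 : ℕ) : ℝ) = 32 := by norm_num
  rw [e]
  exact mul_le_mul_of_nonneg_right ha2 (by positivity)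

/-- the bootstrap argument -/
theorem boot (h1 : Lace1) (η : ℝ) (hη : 0 < η) : ∃ d₀ : ℕ, ∀ d ≥ d₀, ∀ p : ℝ, 0 ≤ p → p ≤ 1 →
    ExpDec d p → (∀ x : V d, conv (pJ p) (cpow (tau p) 8) x ≤ η) ∧
      ∃ Q : V d → ℝ, LacePi d p η Q ∧ PermInv Q := by
  obtain ⟨C, hC, h1⟩ := h1
  set μ : ℝ := min η (1 / 32) with hμ
  have hμ0 : 0 < μ := lt_min hη (by norm_num)
  set σ : ℝ := μ / (C + 1) with hσ
  have hσ0 : 0 < σ := by positivity
  have hCσ : C * σ ≤ μ := by
    rw [hσ, mul_div_assoc', div_le_iff₀ (by positivity)]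
    nlinarith
  have hσμ : σ ≤ μ := by
    rw [hσ, div_le_iff₀ (by positivity)]
    nlinarith
  obtain ⟨N, hN⟩ := exists_nat_gt ((2 * (2 * (3 ^ 8 * Real.exp 32)) / σ) ^ 2)
  refine ⟨max 64 N, fun d hd p hp hp1 hdec => ?_⟩
  have hd64 : 64 ≤ d := (le_max_left _ _).trans hd
  have hdN : N ≤ d := (le_max_right _ _).trans hd
  have hbig : 2 * (3 ^ 8 * Real.exp 32 / Real.sqrt (2 * d)) ≤ σ / 2 := by
    have hdN' : ((2 * (2 * (3 ^ 8 * Real.exp 32)) / σ) ^ 2) ≤ 2 * (d : ℝ) := by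
      have : (N : ℝ) ≤ d := by exact_mod_cast hdN
      have h0 : (0 : ℝ) ≤ d := by positivity
      linarith
    have hsq : 2 * (2 * (3 ^ 8 * Real.exp 32)) / σ ≤ Real.sqrt (2 * d) := by
      apply Real.le_sqrt_of_sq_le
      exact hdN'
    have hpos : 0 < Real.sqrt (2 * d) := by
      apply Real.sqrt_pos.2
      have : (0 : ℝ) < d := by
        have : 0 < d := by omega
        exact_mod_cast this
      positivity
    rw [div_le_iff₀ hσ0] at hsq
    rw [← mul_div_assoc, div_le_iff₀ hpos]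
    nlinarith
  have hCσ32 : C * σ ≤ 1 / 32 := hCσ.trans (min_le_right _ _)
  -- the induction over the steps
  have hmain : ∀ x : V d, conv (pJ p) (cpow (tau p) 8) x ≤ σ / 2 := by
    obtain ⟨L, hL, hcont⟩ := s_cont hp1 hdec
    obtain ⟨n, hn⟩ := exists_nat_gt (L * p / (σ / 2))
    have hn0 : 0 < (n : ℝ) := lt_of_le_of_lt (by positivity) hn
    have hstep : L * (p / n) ≤ σ / 2 := by
      rw [div_lt_iff₀ (by positivity)] at hn
      rw [mul_div_assoc', div_le_iff₀ hn0]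
      linarith
    have hind : ∀ i : ℕ, i ≤ n → ∀ x : V d,
        conv (pJ (i * (p / n))) (cpow (tau (i * (p / n))) 8) x ≤ σ / 2 := by
      intro i
      induction i with
      | zero =>
        intro _ x
        have e : (pJ (((0 : ℕ) : ℝ) * (p / n)) : V d → ℝ) = fun y => 0 := by
          funext y
          simp [pJ]
        rw [e]
        unfold conv
        simp only [zero_mul, tsum_zero]
        positivity
      | succ i ih =>
        intro hi x
        have hle : ((i + 1 : ℕ) : ℝ) * (p / n) ≤ p := by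
          have : ((i + 1 : ℕ) : ℝ) ≤ n := by exact_mod_cast hi
          calc ((i + 1 : ℕ) : ℝ) * (p / n) ≤ n * (p / n) :=
                mul_le_mul_of_nonneg_right this (by positivity)
            _ = p := by field_simp
        have hq0 : 0 ≤ ((i + 1 : ℕ) : ℝ) * (p / n) := by positivity
        have hp0 : 0 ≤ (i : ℝ) * (p / n) := by positivity
        have hpq : (i : ℝ) * (p / n) ≤ ((i + 1 : ℕ) : ℝ) * (p / n) := by
          push_cast
          have : 0 ≤ p / n := by positivity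
          linarith
        refine (LBoot_round h1 hCσ32 hd64 hbig hq0 (hle.trans hp1) (hdec.mono hle) ?_).1 x
        intro y
        have h2 := hcont _ _ hp0 hpq hle y
        have h3 := ih (by omega) y
        have h4 : ((i + 1 : ℕ) : ℝ) * (p / n) - (i : ℝ) * (p / n) = p / n := by
          push_cast
          ring
        rw [h4] at h2
        linarith
    have hfin := hind n le_rfl
    have e : (n : ℝ) * (p / n) = p := by field_simp
    rw [e] at hfin
    exact hfin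
  have hmain2 : ∀ x : V d, conv (pJ p) (cpow (tau p) 8) x ≤ σ :=
    fun x => (hmain x).trans (by linarith)
  obtain ⟨-, Q, hQ, hP⟩ := LBoot_round h1 hCσ32 hd64 hbig hp hp1 hdec hmain2
  have hμη : μ ≤ η := min_le_left _ _
  exact ⟨fun x => (hmain2 x).trans (hσμ.trans hμη), Q, LBoot_mono hQ (hCσ.trans hμη), hP⟩

end Pool.Agent.helper55.FP
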