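import Pool.Agent.helper90.FP.LADefs

/-!
# FP project, part L2, module LConv: convolution algebra on `ℤ^d`
-/

set_option autoImplicit false

open MeasureTheory Set

namespace Pool.Agent.helper55.FP

variable {d : ℕ} {f g h : V d → ℝ}

theorem conv_comm (f g : V d → ℝ) : conv f g = conv g f := by
  funext x
  unfold conv
  rw [← (Equiv.subLeft x).tsum_eq (fun y => f y * g (x - y))]
  refine tsum_congr fun y => ?_
  rw [Equiv.subLeft_apply, sub_sub_cancel, mul_comm]

theorem conv_dirac0 (f : V d → ℝ) : conv f dirac0 = f := by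
  funext x
  unfold conv dirac0
  rw [tsum_eq_single x]
  · simp
  · intro y hy
    rw [if_neg (sub_ne_zero.2 (Ne.symm hy)), mul_zero]

theorem dirac0_conv (f : V d → ℝ) : conv dirac0 f = f := by
  rw [conv_comm, conv_dirac0]

/-- a summable function is bounded -/
theorem LConv_bdd (hg : Summable g) (x : V d) : |g x| ≤ ∑' y, |g y| :=
  hg.abs.le_tsum x fun _ _ => abs_nonneg _

theorem LConv_summable_mul_bdd {C : ℝ} (hf : Summable f) (hg : ∀ x, |g x| ≤ C) (x : V d) :
    Summable (fun y => f y * g (x - y)) := by
  refine Summable.of_norm_bounded (g := fun y => |f y| * C) (hf.abs.mul_right C) fun y => ?_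
  rw [norm_mul, Real.norm_eq_abs, Real.norm_eq_abs]
  exact mul_le_mul_of_nonneg_left (hg _) (abs_nonneg _)

theorem conv_point_summable (hf : Summable f) (hg : Summable g) (x : V d) :
    Summable (fun y => f y * g (x - y)) :=
  LConv_summable_mul_bdd hf (LConv_bdd hg) x

/-- the shear `(x,y) ↦ (y, x - y)` -/
def LConvShear (d : ℕ) : V d × V d ≃ V d × V d where
  toFun z := (z.2, z.1 - z.2)
  invFun z := (z.2 + z.1, z.1)
  left_inv z := by ext1 <;> simp
  right_inv z := by ext1 <;> simp

theorem LConv_pair_summable (hf : Summable f) (hg : Summable g) :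
    Summable (fun z : V d × V d => f z.2 * g (z.1 - z.2)) := by
  have h1 : Summable (fun z : V d × V d => f z.1 * g z.2) :=
    summable_mul_of_summable_norm hf.norm hg.norm
  exact (LConvShear d).summable_iff.2 h1

theorem conv_summable (hf : Summable f) (hg : Summable g) : Summable (conv f g) :=
  (LConv_pair_summable hf hg).prod

theorem tsum_conv (hf : Summable f) (hg : Summable g) :
    ∑' x, conv f g x = (∑' x, f x) * ∑' x, g x := by
  unfold conv
  rw [← (LConv_pair_summable hf hg).tsum_prod, tsum_mul_tsum_of_summable_norm hf.norm hg.norm]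
  exact (LConvShear d).tsum_eq (fun z : V d × V d => f z.1 * g z.2)

theorem conv_assoc (hf : Summable f) (hg : Summable g) (hh : Summable h) :
    conv (conv f g) h = conv f (conv g h) := by
  funext x
  have hpair : Summable (Function.uncurry fun y z : V d => f z * g (y - z) * h (x - y)) := by
    refine Summable.of_norm_bounded
      (g := fun z : V d × V d => |f z.2 * g (z.1 - z.2)| * ∑' y, |h y|)
      ((LConv_pair_summable hf hg).abs.mul_right _) fun z => ?_
    rw [Function.uncurry_def, norm_mul, Real.norm_eq_abs, Real.norm_eq_abs]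
    exact mul_le_mul_of_nonneg_left (LConv_bdd hh _) (abs_nonneg _)
  calc conv (conv f g) h x = ∑' y, ∑' z, f z * g (y - z) * h (x - y) := by
        unfold conv
        refine tsum_congr fun y => ?_
        rw [tsum_mul_right]
    _ = ∑' z, ∑' y, f z * g (y - z) * h (x - y) := hpair.tsum_comm.symm
    _ = conv f (conv g h) x := by
        unfold conv
        refine tsum_congr fun z => ?_
        rw [← tsum_mul_left, ← (Equiv.addRight z).tsum_eq]
        refine tsum_congr fun y => ?_
        rw [Equiv.coe_addRight, add_sub_cancel_right, mul_assoc, sub_sub, add_comm z y]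

theorem conv_add_left (hf : Summable f) (hg : Summable g) (hh : Summable h) :
    conv (fun x => f x + g x) h = fun x => conv f h x + conv g h x := by
  funext x
  unfold conv
  rw [← (conv_point_summable hf hh x).tsum_add (conv_point_summable hg hh x)]
  exact tsum_congr fun y => add_mul _ _ _

theorem conv_add_right (hf : Summable f) (hg : Summable g) (hh : Summable h) :
    conv f (fun x => g x + h x) = fun x => conv f g x + conv f h x := by
  funext x
  unfold conv
  rw [← (conv_point_summable hf hg x).tsum_add (conv_point_summable hf hh x)]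
  exact tsum_congr fun y => mul_add _ _ _

theorem conv_smul_left (c : ℝ) (f g : V d → ℝ) :
    conv (fun x => c * f x) g = fun x => c * conv f g x := by
  funext x
  unfold conv
  rw [← tsum_mul_left]
  exact tsum_congr fun y => mul_assoc _ _ _

theorem conv_smul_right (c : ℝ) (f g : V d → ℝ) :
    conv f (fun x => c * g x) = fun x => c * conv f g x := by
  funext x
  unfold conv
  rw [← tsum_mul_left]
  exact tsum_congr fun y => mul_left_comm _ _ _

theorem conv_nonneg (hf : ∀ x, 0 ≤ f x) (hg : ∀ x, 0 ≤ g x) (x : V d) : 0 ≤ conv f g x :=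
  tsum_nonneg fun y => mul_nonneg (hf y) (hg _)

theorem conv_mono {f' g' : V d → ℝ} (hf : Summable f') (hg : Summable g') (hf0 : ∀ x, 0 ≤ f x)
    (hg0 : ∀ x, 0 ≤ g x) (hff : ∀ x, f x ≤ f' x) (hgg : ∀ x, g x ≤ g' x) (x : V d) :
    conv f g x ≤ conv f' g' x := by
  have h1 : ∀ y, f y * g (x - y) ≤ f' y * g' (x - y) := fun y =>
    mul_le_mul (hff y) (hgg _) (hg0 _) ((hf0 y).trans (hff y))
  exact Summable.tsum_le_tsum h1 (Summable.of_nonneg_of_le
    (fun y => mul_nonneg (hf0 y) (hg0 _)) h1 (conv_point_summable hf hg x))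
    (conv_point_summable hf hg x)

theorem abs_conv_le (hf : Summable f) (hg : Summable g) (x : V d) :
    |conv f g x| ≤ conv (fun y => |f y|) (fun y => |g y|) x := by
  have h1 := norm_tsum_le_tsum_norm (conv_point_summable hf hg x).norm
  simp only [Real.norm_eq_abs, abs_mul] at h1
  exact h1

theorem conv_even (hf : ∀ x, f (-x) = f x) (hg : ∀ x, g (-x) = g x) (x : V d) :
    conv f g (-x) = conv f g x := by
  unfold conv
  rw [← (Equiv.neg (V d)).tsum_eq]
  refine tsum_congr fun y => ?_
  rw [Equiv.neg_apply, hf, ← hg (x - y)]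
  congr 2
  abel

/-- coordinate permutations of the lattice -/
def LConvPerm (σ : Equiv.Perm (Fin d)) : V d ≃ V d where
  toFun y := fun i => y (σ i)
  invFun y := fun i => y (σ.symm i)
  left_inv y := by funext i; simp
  right_inv y := by funext i; simp

/-- invariance of a convolution under a coordinate permutation -/
theorem conv_perm (σ : Equiv.Perm (Fin d)) (f g : V d → ℝ) (x : V d) :
    conv f g (fun i => x (σ i)) =
      conv (fun y => f (fun i => y (σ i))) (fun y => g (fun i => y (σ i))) x := by
  unfold conv
  exact ((LConvPerm σ).tsum_eq (fun y => f y * g ((fun i => x (σ i)) - y))).symm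

theorem conv_le_sup {C : ℝ} (hf : Summable f) (hf0 : ∀ x, 0 ≤ f x) (hg0 : ∀ x, 0 ≤ g x)
    (hg : ∀ x, g x ≤ C) (x : V d) : conv f g x ≤ (∑' y, f y) * C := by
  rw [← tsum_mul_right]
  exact Summable.tsum_le_tsum (fun y => mul_le_mul_of_nonneg_left (hg _) (hf0 y))
    (LConv_summable_mul_bdd hf (fun z => by rw [abs_of_nonneg (hg0 z)]; exact hg z) x)
    (hf.mul_right C)

theorem dirac0_summable : Summable (dirac0 : V d → ℝ) := by
  refine summable_of_ne_finset_zero (s := {0}) fun x hx => ?_
  unfold dirac0
  rw [if_neg]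
  simpa using hx

theorem dirac0_even (x : V d) : dirac0 (-x) = dirac0 x := by
  unfold dirac0
  simp

theorem tsum_dirac0 : ∑' x : V d, dirac0 x = 1 := by
  unfold dirac0
  rw [tsum_ite_eq]

theorem cpow_one (f : V d → ℝ) : cpow f 1 = f := conv_dirac0 f

theorem cpow_summable (hf : Summable f) (m : ℕ) : Summable (cpow f m) := by
  induction m with
  | zero => exact dirac0_summable
  | succ m ih => exact conv_summable hf ih

theorem tsum_cpow (hf : Summable f) (m : ℕ) : ∑' x, cpow f m x = (∑' x, f x) ^ m := by
  induction m with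
  | zero => rw [pow_zero]; exact tsum_dirac0
  | succ m ih =>
    rw [pow_succ', ← ih]
    exact tsum_conv hf (cpow_summable hf m)

theorem LConv_dirac0_nonneg (x : V d) : 0 ≤ dirac0 x := by
  unfold dirac0
  split_ifs <;> norm_num

theorem cpow_nonneg (hf : ∀ x, 0 ≤ f x) (m : ℕ) (x : V d) : 0 ≤ cpow f m x := by
  induction m generalizing x with
  | zero => exact LConv_dirac0_nonneg x
  | succ m ih => exact conv_nonneg hf ih x

theorem cpow_even (hf : ∀ x, f (-x) = f x) (m : ℕ) (x : V d) : cpow f m (-x) = cpow f m x := by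
  induction m generalizing x with
  | zero => exact dirac0_even x
  | succ m ih => exact conv_even hf ih x

theorem cpow_add (hf : Summable f) (m n : ℕ) :
    cpow f (m + n) = conv (cpow f m) (cpow f n) := by
  induction m with
  | zero => rw [Nat.zero_add]; exact (dirac0_conv _).symm
  | succ m ih =>
    rw [Nat.succ_add]
    change conv f (cpow f (m + n)) = conv (conv f (cpow f m)) (cpow f n)
    rw [ih, conv_assoc hf (cpow_summable hf m) (cpow_summable hf n)]

theorem cpow_mono {f' : V d → ℝ} (hf' : Summable f') (hf : ∀ x, 0 ≤ f x)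
    (hff : ∀ x, f x ≤ f' x) (m : ℕ) (x : V d) : cpow f m x ≤ cpow f' m x := by
  induction m generalizing x with
  | zero => exact le_rfl
  | succ m ih => exact conv_mono hf' (cpow_summable hf' m) hf (cpow_nonneg hf m) hff ih x

theorem cpow_le_cpow (hf : Summable f) (hf0 : ∀ x, 0 ≤ f x) (h1 : 1 ≤ f 0) {m n : ℕ}
    (hmn : m ≤ n) (x : V d) : cpow f m x ≤ cpow f n x := by
  induction hmn with
  | refl => exact le_rfl
  | @step n _ ih =>
    refine ih.trans ?_
    have h2 := (conv_point_summable hf (cpow_summable hf n) x).le_tsum 0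
      fun y _ => mul_nonneg (hf0 y) (cpow_nonneg hf0 n _)
    rw [sub_zero] at h2
    have h3 : cpow f n x ≤ f 0 * cpow f n x := le_mul_of_one_le_left (cpow_nonneg hf0 n x) h1
    exact h3.trans h2

end Pool.Agent.helper55.FP
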