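import Pool.Agent.helper90.FP.LConv
import Pool.Agent.helper55.FP.Symm

/-!
# FP project, part L2, module LCt: the cosine transform
-/

set_option autoImplicit false

open MeasureTheory Set

namespace Pool.Agent.helper55.FP

variable {d : ℕ} {f g h : V d → ℝ}

/-! ## the kernel `pJ` -/

/-- the neighbours of the origin -/
def LCt_nb (s : Fin d × Bool) : V d := if s.2 = true then Pi.single s.1 1 else -Pi.single s.1 1

theorem LCt_nb_inj : Function.Injective (LCt_nb : Fin d × Bool → V d) := by
  rintro ⟨i, b⟩ ⟨j, c⟩ h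
  have hi := congrFun h i
  cases b <;> cases c <;> by_cases hij : i = j <;>
    simp [LCt_nb, hij] at hi ⊢

theorem LCt_adj_iff (x : V d) : Adj 0 x ↔ ∃ s : Fin d × Bool, LCt_nb s = x := by
  constructor
  · rintro ⟨⟨y, i⟩, ⟨h1, h2⟩ | ⟨h1, h2⟩⟩
    · refine ⟨(i, true), ?_⟩
      have h3 : x = y + Pi.single i 1 := h2
      have h4 : 0 = y := h1
      rw [h3, ← h4, zero_add]
      simp [LCt_nb]
    · refine ⟨(i, false), ?_⟩
      have h3 : 0 = y + Pi.single i 1 := h2
      have h4 : x = y := h1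
      simp only [LCt_nb, Bool.false_eq_true, if_false]
      rw [h4]
      exact (eq_neg_of_add_eq_zero_left h3.symm).symm
  · rintro ⟨⟨i, b⟩, rfl⟩
    cases b
    · refine ⟨(-Pi.single i 1, i), Or.inr ⟨?_, ?_⟩⟩
      · simp [LCt_nb]
      · simp [tip]
    · refine ⟨(0, i), Or.inl ⟨rfl, ?_⟩⟩
      simp [tip, LCt_nb]

open Classical in
theorem LCt_pJ_eq (p : ℝ) (x : V d) :
    pJ p x = if x ∈ Finset.univ.image (LCt_nb : Fin d × Bool → V d) then p else 0 := by
  unfold pJ
  simp only [Finset.mem_image, Finset.mem_univ, true_and]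
  by_cases h : Adj 0 x
  · rw [if_pos h, if_pos ((LCt_adj_iff x).1 h)]
  · rw [if_neg h, if_neg (fun h' => h ((LCt_adj_iff x).2 h'))]

theorem LCt_pJ_zero (p : ℝ) (x : V d) (hx : x ∉ Finset.univ.image (LCt_nb : Fin d × Bool → V d)) :
    pJ p x = 0 := by
  rw [LCt_pJ_eq, if_neg (by convert hx)]

theorem LCt_summable (p : ℝ) (F : V d → ℝ) : Summable (fun x => pJ p x * F x) := by
  refine summable_of_ne_finset_zero (s := Finset.univ.image (LCt_nb : Fin d × Bool → V d)) ?_
  intro x hx
  rw [LCt_pJ_zero p x hx, zero_mul]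

theorem LCt_tsum (p : ℝ) (F : V d → ℝ) :
    ∑' x, pJ p x * F x = p * ∑ i, (F (Pi.single i 1) + F (-Pi.single i 1)) := by
  rw [tsum_eq_sum (s := Finset.univ.image (LCt_nb : Fin d × Bool → V d))
    (fun x hx => by rw [LCt_pJ_zero p x hx, zero_mul]),
    Finset.sum_image (fun a _ b _ h => LCt_nb_inj h), Fintype.sum_prod_type, Finset.mul_sum]
  refine Finset.sum_congr rfl (fun i _ => ?_)
  have h1 : ∀ s : Fin d × Bool, pJ p (LCt_nb s) = p := by
    intro s
    unfold pJ
    rw [if_pos ((LCt_adj_iff _).2 ⟨s, rfl⟩)]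
  rw [Fintype.sum_bool, h1, h1]
  simp only [LCt_nb, if_true, Bool.false_eq_true, if_false]
  ring

theorem pJ_nonneg {p : ℝ} (hp : 0 ≤ p) (x : V d) : 0 ≤ pJ p x := by
  unfold pJ
  split_ifs
  · exact hp
  · exact le_rfl

theorem pJ_summable (p : ℝ) : Summable (pJ p : V d → ℝ) := by
  simpa using LCt_summable (d := d) p (fun _ => 1)

theorem LCt_adj_neg (x : V d) (h : Adj 0 x) : Adj 0 (-x) := by
  rw [LCt_adj_iff] at h ⊢
  obtain ⟨⟨i, b⟩, rfl⟩ := h
  refine ⟨(i, !b), ?_⟩
  cases b <;> simp [LCt_nb]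

theorem pJ_even (p : ℝ) (x : V d) : pJ p (-x) = pJ p x := by
  unfold pJ
  by_cases h : Adj 0 x
  · rw [if_pos h, if_pos (LCt_adj_neg x h)]
  · rw [if_neg h, if_neg]
    intro h'
    apply h
    have := LCt_adj_neg _ h'
    rwa [neg_neg] at this

theorem LCt_adj_perm (σ : Equiv.Perm (Fin d)) (x : V d) (h : Adj 0 x) :
    Adj 0 (fun i => x (σ i)) := by
  rw [LCt_adj_iff] at h ⊢
  obtain ⟨⟨i, b⟩, rfl⟩ := h
  refine ⟨(σ.symm i, b), ?_⟩
  funext j
  have h1 : (j = σ.symm i) ↔ (σ j = i) := Equiv.eq_symm_apply σ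
  cases b <;> simp [LCt_nb, Pi.single_apply, h1]

theorem pJ_perm (p : ℝ) : PermInv (pJ p : V d → ℝ) := by
  intro σ x
  unfold pJ
  by_cases h : Adj 0 x
  · rw [if_pos h, if_pos (LCt_adj_perm σ x h)]
  · rw [if_neg h, if_neg]
    intro h'
    apply h
    have := LCt_adj_perm σ.symm _ h'
    simpa using this

theorem tsum_pJ (p : ℝ) : ∑' x : V d, pJ p x = 2 * d * p := by
  have := LCt_tsum (d := d) p (fun _ => 1)
  simp only [mul_one] at this
  rw [this]
  simp
  ring

/-! ## the transform -/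

theorem ct_summable (hf : Summable f) (k : Fin d → ℝ) :
    Summable (fun x => f x * Real.cos (dotk k x)) := by
  refine Summable.of_norm_bounded hf.norm (fun x => ?_)
  rw [norm_mul]
  exact mul_le_of_le_one_right (norm_nonneg _) (Real.abs_cos_le_one _)

theorem LCt_sin_summable (hf : Summable f) (k : Fin d → ℝ) :
    Summable (fun x => f x * Real.sin (dotk k x)) := by
  refine Summable.of_norm_bounded hf.norm (fun x => ?_)
  rw [norm_mul]
  exact mul_le_of_le_one_right (norm_nonneg _) (Real.abs_sin_le_one _)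

theorem abs_ct_le (hf : Summable f) (k : Fin d → ℝ) : |ct f k| ≤ ∑' x, |f x| := by
  have h1 : ‖ct f k‖ ≤ ∑' x, ‖f x * Real.cos (dotk k x)‖ :=
    norm_tsum_le_tsum_norm (ct_summable hf k).norm
  refine h1.trans (Summable.tsum_le_tsum (fun x => ?_) (ct_summable hf k).norm hf.abs)
  rw [norm_mul]
  exact mul_le_of_le_one_right (norm_nonneg _) (Real.abs_cos_le_one _)

theorem LCt_dotk_zero (x : V d) : dotk 0 x = 0 := by simp [dotk]

theorem LCt_dotk_zero' (k : Fin d → ℝ) : dotk k (0 : V d) = 0 := by simp [dotk]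

theorem LCt_dotk_neg (k : Fin d → ℝ) (x : V d) : dotk k (-x) = -dotk k x := by simp [dotk]

theorem LCt_dotk_sub (k : Fin d → ℝ) (x y : V d) : dotk k (x - y) = dotk k x - dotk k y := by
  simp [dotk, mul_sub, Finset.sum_sub_distrib]

theorem LCt_dotk_single (k : Fin d → ℝ) (i : Fin d) : dotk k (Pi.single i 1 : V d) = k i := by
  unfold dotk
  rw [Finset.sum_eq_single i]
  · simp
  · intro j _ hj
    simp [hj]
  · intro h
    exact absurd (Finset.mem_univ i) h

theorem ct_zero (f : V d → ℝ) : ct f 0 = ∑' x, f x := by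
  simp [ct, LCt_dotk_zero]

theorem ct_add (hf : Summable f) (hg : Summable g) (k : Fin d → ℝ) :
    ct (fun x => f x + g x) k = ct f k + ct g k := by
  unfold ct
  rw [← (ct_summable hf k).tsum_add (ct_summable hg k)]
  exact tsum_congr (fun x => by ring)

theorem ct_sub (hf : Summable f) (hg : Summable g) (k : Fin d → ℝ) :
    ct (fun x => f x - g x) k = ct f k - ct g k := by
  unfold ct
  rw [← (ct_summable hf k).tsum_sub (ct_summable hg k)]
  exact tsum_congr (fun x => by ring)

theorem ct_smul (c : ℝ) (f : V d → ℝ) (k : Fin d → ℝ) :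
    ct (fun x => c * f x) k = c * ct f k := by
  unfold ct
  rw [← tsum_mul_left]
  exact tsum_congr (fun x => by ring)

theorem ct_dirac0 (k : Fin d → ℝ) : ct (dirac0 : V d → ℝ) k = 1 := by
  unfold ct
  rw [tsum_eq_single 0]
  · simp [dirac0, LCt_dotk_zero']
  · intro x hx
    simp [dirac0, hx]

theorem ct_pJ (p : ℝ) (k : Fin d → ℝ) : ct (pJ p : V d → ℝ) k = 2 * d * p * Dh k := by
  unfold ct
  rw [LCt_tsum]
  simp only [LCt_dotk_neg, LCt_dotk_single, Real.cos_neg, Dh]
  rcases Nat.eq_zero_or_pos d with hd | hd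
  · subst hd
    simp
  · have hd' : (d : ℝ) ≠ 0 := by positivity
    rw [show ∑ i, (Real.cos (k i) + Real.cos (k i)) = 2 * ∑ i, Real.cos (k i) by
      rw [Finset.mul_sum]
      exact Finset.sum_congr rfl (fun i _ => by ring)]
    field_simp

theorem LCt_sin_zero (hge : ∀ x, g (-x) = g x) (k : Fin d → ℝ) :
    ∑' x, g x * Real.sin (dotk k x) = 0 := by
  have h1 : ∑' x, g x * Real.sin (dotk k x) = ∑' x, g (-x) * Real.sin (dotk k (-x)) :=
    ((Equiv.neg (V d)).tsum_eq (fun x => g x * Real.sin (dotk k x))).symm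
  have h2 : ∑' x, g (-x) * Real.sin (dotk k (-x)) = -∑' x, g x * Real.sin (dotk k x) := by
    rw [← tsum_neg]
    refine tsum_congr (fun x => ?_)
    rw [hge, LCt_dotk_neg, Real.sin_neg]
    ring
  linarith

theorem ct_conv (hf : Summable f) (hg : Summable g) (hge : ∀ x, g (-x) = g x)
    (k : Fin d → ℝ) : ct (conv f g) k = ct f k * ct g k := by
  -- the double series
  have hprod : Summable (fun p : V d × V d => f p.1 * g p.2) :=
    summable_mul_of_summable_norm hf.norm hg.norm
  let e : V d × V d ≃ V d × V d :=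
    { toFun := fun p => (p.2, p.1 - p.2)
      invFun := fun q => (q.2 + q.1, q.1)
      left_inv := fun p => by simp
      right_inv := fun q => by simp }
  have hprod2 : Summable (fun p : V d × V d => f p.2 * g (p.1 - p.2)) :=
    (e.summable_iff (f := fun p : V d × V d => f p.1 * g p.2)).2 hprod
  have hprod3 : Summable
      (fun p : V d × V d => f p.2 * g (p.1 - p.2) * Real.cos (dotk k p.1)) := by
    refine Summable.of_norm_bounded hprod2.norm (fun x => ?_)
    rw [norm_mul]
    exact mul_le_of_le_one_right (norm_nonneg _) (Real.abs_cos_le_one _)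
  have h1 : ct (conv f g) k = ∑' x, ∑' y, f y * g (x - y) * Real.cos (dotk k x) := by
    unfold ct conv
    refine tsum_congr (fun x => ?_)
    rw [tsum_mul_right]
  have h2 : ∑' x, ∑' y, f y * g (x - y) * Real.cos (dotk k x) =
      ∑' y, ∑' x, f y * g (x - y) * Real.cos (dotk k x) := by
    have := Summable.tsum_comm (f := fun (x y : V d) => f y * g (x - y) * Real.cos (dotk k x))
      hprod3
    exact this.symm
  rw [h1, h2]
  have h3 : ∀ y, ∑' x, f y * g (x - y) * Real.cos (dotk k x) =
      f y * Real.cos (dotk k y) * ct g k := by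
    intro y
    have h4 : ∑' x, f y * g (x - y) * Real.cos (dotk k x) =
        ∑' z, f y * g z * Real.cos (dotk k (z + y)) := by
      rw [← (Equiv.addRight y).tsum_eq (fun x => f y * g (x - y) * Real.cos (dotk k x))]
      refine tsum_congr (fun z => ?_)
      simp
    rw [h4]
    have h5 : ∀ z, f y * g z * Real.cos (dotk k (z + y)) =
        f y * Real.cos (dotk k y) * (g z * Real.cos (dotk k z)) -
          f y * Real.sin (dotk k y) * (g z * Real.sin (dotk k z)) := by
      intro z
      have : dotk k (z + y) = dotk k z + dotk k y := by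
        have := LCt_dotk_sub k z (-y)
        rw [sub_neg_eq_add, LCt_dotk_neg, sub_neg_eq_add] at this
        exact this
      rw [this, Real.cos_add]
      ring
    rw [tsum_congr h5, Summable.tsum_sub ((ct_summable hg k).mul_left _)
      ((LCt_sin_summable hg k).mul_left _), tsum_mul_left, tsum_mul_left, LCt_sin_zero hge]
    simp [ct]
  rw [tsum_congr h3, tsum_mul_right]
  rfl

theorem ct_cpow (hf : Summable f) (hfe : ∀ x, f (-x) = f x) (m : ℕ) (k : Fin d → ℝ) :
    ct (cpow f m) k = ct f k ^ m := by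
  induction m with
  | zero => simp [cpow, ct_dirac0]
  | succ m ih =>
    rw [cpow, ct_conv hf (cpow_summable hf m) (fun x => cpow_even hfe m x), ih]
    ring

theorem LCt_dotk_continuous (x : V d) : Continuous (fun k : Fin d → ℝ => dotk k x) := by
  unfold dotk
  fun_prop

theorem ct_continuous (hf : Summable f) : Continuous (ct f) := by
  unfold ct
  refine continuous_tsum (u := fun x => ‖f x‖) (fun x => ?_) hf.norm (fun x k => ?_)
  · exact continuous_const.mul (Real.continuous_cos.comp (LCt_dotk_continuous x))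
  · rw [norm_mul]
    exact mul_le_of_le_one_right (norm_nonneg _) (Real.abs_cos_le_one _)

theorem Dh_continuous : Continuous (Dh : (Fin d → ℝ) → ℝ) := by
  unfold Dh
  fun_prop

theorem abs_Dh_le_one (k : Fin d → ℝ) : |Dh k| ≤ 1 := by
  unfold Dh
  rcases Nat.eq_zero_or_pos d with hd | hd
  · subst hd
    simp
  · have hd' : (0 : ℝ) < d := by positivity
    rw [abs_div, abs_of_pos hd', div_le_one hd']
    refine (Finset.abs_sum_le_sum_abs _ _).trans ?_
    refine (Finset.sum_le_sum (fun i _ => Real.abs_cos_le_one (k i))).trans ?_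
    simp

theorem one_sub_Dh_nonneg (k : Fin d → ℝ) : 0 ≤ 1 - Dh k := by
  have := (abs_le.1 (abs_Dh_le_one k)).2
  linarith

theorem one_sub_Dh_le_two (k : Fin d → ℝ) : 1 - Dh k ≤ 2 := by
  have := (abs_le.1 (abs_Dh_le_one k)).1
  linarith

end Pool.Agent.helper55.FP
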