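import Pool.Agent.helper90.FP.LBoot
import Pool.Agent.helper90.FP.LBall

/-!
# FP project, part L2: final statement (from `Lace1`)
-/

set_option autoImplicit false

open MeasureTheory Set

namespace Pool.Agent.helper55.FP

theorem lace_of_lace1 (h1 : Lace1) (η : ℝ) (hη : 0 < η) : ∃ d₀ : ℕ, ∀ d ≥ d₀, ∀ pc : ℝ, 0 < pc →
    pc ≤ 1 → SubExp d pc → LaceOut d η pc := by
  set ε : ℝ := min (η / 4) (1 / 32) with hε
  have hε0 : 0 < ε := lt_min (by positivity) (by norm_num)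
  have hε1 : ε ≤ η / 4 := min_le_left _ _
  have hε2 : ε ≤ 1 / 32 := min_le_right _ _
  obtain ⟨d₀, hd₀⟩ := boot h1 ε hε0
  refine ⟨max d₀ 64, fun d hd pc hpc hpc1 hsub => ?_⟩
  have hdd : d₀ ≤ d := (le_max_left _ _).trans hd
  have hd64 : 64 ≤ d := (le_max_right _ _).trans hd
  have hdec : ∀ p, 0 ≤ p → p < pc → ExpDec d p := fun p hp hpp => hsub p hp hpp
  have hfacts : ∀ p, 0 ≤ p → p < pc → (∀ x : V d, conv (pJ p) (cpow (tau p) 8) x ≤ ε) ∧
      IR 3 d p ∧ 2 * d * p * (1 - ε) ≤ 1 ∧ 1 - ε - 1 / chi d p ≤ 2 * d * p := by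
    intro p hp hpp
    obtain ⟨h2, Q, hQ, hP⟩ := hd₀ d hdd p hp (hpp.le.trans hpc1) (hdec p hp hpp)
    exact ⟨h2, infrared (by omega) hp (hdec p hp hpp) hQ hP hε2⟩
  refine ⟨?_, ?_, ?_, ?_, ?_⟩
  · by_contra hcon
    rw [not_le] at hcon
    have hdpos : (0 : ℝ) < d := by
      have : 0 < d := by omega
      exact_mod_cast this
    have h3 : (1 + η) / (2 * d) < pc := by
      rw [div_lt_iff₀ (by positivity)]
      linarith
    have h4 : 0 < (1 + η) / (2 * d) := by positivity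
    obtain ⟨-, -, h5, -⟩ := hfacts ((1 + η) / (2 * d)) h4.le h3
    have h6 : 2 * (d : ℝ) * ((1 + η) / (2 * d)) = 1 + η := by field_simp
    rw [h6] at h5
    nlinarith
  · intro p hp hpp z hz
    obtain ⟨h2, -, -, -⟩ := hfacts p hp hpp
    have h3 := cpow_tau_le hp (hpp.le.trans hpc1) (hdec p hp hpp) h2 (j := 3) (by norm_num) z
    have h4 : dirac0 z = (0 : ℝ) := by simp [dirac0, hz]
    rw [h4] at h3
    push_cast at h3
    linarith
  · intro p hp hpp
    obtain ⟨-, -, -, h2⟩ := hfacts p hp hpp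
    have h3 : 0 ≤ 1 / chi d p := by
      have := one_le_chi (hdec p hp hpp)
      positivity
    have h4 : 2 / chi d p = 1 / chi d p + 1 / chi d p := by ring
    linarith
  · intro m hm
    refine ⟨3 ^ m * Real.exp (4 * m), fun p hp hpp x => ?_⟩
    obtain ⟨-, hir, -, -⟩ := hfacts p hp hpp
    exact cpow_le_of_IR (by norm_num) (hdec p hp hpp) hir (by omega) m hm x
  · obtain ⟨C, hC, hball⟩ := ball_of_IR d (by omega) 3 (by norm_num)
    refine ⟨C, hC, fun p hp hpp r hr F hF => ?_⟩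
    obtain ⟨-, hir, -, -⟩ := hfacts p hp hpp
    exact hball p (hdec p hp hpp) hir r hr F hF

end Pool.Agent.helper55.FP
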