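import Pool.Agent.helper90.FP.LCt

/-!
# FP project, part L2, module LInv: Fourier inversion on the torus
-/

set_option autoImplicit false

open MeasureTheory Set

namespace Pool.Agent.helper55.FP

variable {d : ℕ} {f g h : V d → ℝ}

theorem LInv_one (n : ℤ) :
    ∫ t, Complex.exp ((t : ℂ) * (n : ℂ) * Complex.I) ∂circ = if n = 0 then 1 else 0 := by
  have hpi := Real.pi_pos
  unfold circ
  rw [integral_smul_measure, ← intervalIntegral.integral_of_le (by linarith),
    ENNReal.toReal_ofReal (by positivity)]
  split_ifs with hn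
  · subst hn
    simp only [Int.cast_zero, mul_zero, zero_mul, Complex.exp_zero]
    rw [intervalIntegral.integral_const]
    have h : Real.pi - -Real.pi = 2 * Real.pi := by ring
    rw [h, smul_smul, one_div, inv_mul_cancel₀ (by positivity), one_smul]
  · have hc : (n : ℂ) * Complex.I ≠ 0 :=
      mul_ne_zero (by exact_mod_cast hn) Complex.I_ne_zero
    have h1 : (fun t : ℝ => Complex.exp ((t : ℂ) * (n : ℂ) * Complex.I))
        = fun t : ℝ => Complex.exp (((n : ℂ) * Complex.I) * (t : ℂ)) := by
      funext t
      congr 1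
      ring
    rw [h1, integral_exp_mul_complex hc]
    have h2 : Complex.exp ((n : ℂ) * Complex.I * ((Real.pi : ℝ) : ℂ))
        = Complex.exp ((n : ℂ) * Complex.I * (((-Real.pi : ℝ)) : ℂ)) := by
      rw [Complex.exp_eq_exp_iff_exists_int]
      refine ⟨n, ?_⟩
      push_cast
      ring
    rw [h2, sub_self, zero_div, smul_zero]

/-- orthogonality of the characters -/
theorem int_cos_dotk (x : V d) :
    ∫ k, Real.cos (dotk k x) ∂muT d = if x = 0 then 1 else 0 := by
  have h1 : ∀ k : Fin d → ℝ, Real.cos (dotk k x)
      = (∏ i, Complex.exp ((k i : ℂ) * (x i : ℂ) * Complex.I)).re := by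
    intro k
    rw [← Complex.exp_sum, ← Finset.sum_mul]
    have h2 : (∑ i, (k i : ℂ) * (x i : ℂ)) = ((dotk k x : ℝ) : ℂ) := by
      unfold dotk
      push_cast
      rfl
    rw [h2, Complex.exp_ofReal_mul_I_re]
  have h3 : ∫ k : Fin d → ℝ, ∏ i, Complex.exp ((k i : ℂ) * (x i : ℂ) * Complex.I) ∂muT d
      = ∏ i, ∫ t, Complex.exp ((t : ℂ) * (x i : ℂ) * Complex.I) ∂circ := by
    unfold muT
    exact integral_fintype_prod_eq_prod
      (f := fun i (t : ℝ) => Complex.exp ((t : ℂ) * (x i : ℂ) * Complex.I))
  have h4 : Integrable (fun k : Fin d → ℝ =>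
      ∏ i, Complex.exp ((k i : ℂ) * (x i : ℂ) * Complex.I)) (muT d) := by
    refine Integrable.of_bound (C := 1) ?_ (Filter.Eventually.of_forall fun k => ?_)
    · refine Continuous.aestronglyMeasurable ?_
      fun_prop
    · rw [norm_prod]
      refine Finset.prod_le_one (fun _ _ => norm_nonneg _) fun i _ => ?_
      have : (k i : ℂ) * (x i : ℂ) * Complex.I = (((k i) * (x i : ℝ) : ℝ) : ℂ) * Complex.I := by
        push_cast; rfl
      rw [this, Complex.norm_exp_ofReal_mul_I]
  simp_rw [h1]
  have h5 : ∫ k : Fin d → ℝ, (∏ i, Complex.exp ((k i : ℂ) * (x i : ℂ) * Complex.I)).re ∂muT d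
      = (∫ k : Fin d → ℝ, ∏ i, Complex.exp ((k i : ℂ) * (x i : ℂ) * Complex.I) ∂muT d).re :=
    integral_re h4
  rw [h5, h3]
  simp_rw [LInv_one]
  split_ifs with hx
  · subst hx
    simp
  · obtain ⟨i, hi⟩ := Function.ne_iff.1 hx
    rw [Finset.prod_eq_zero (Finset.mem_univ i)]
    · simp
    · exact if_neg hi

theorem LInv_dotk_cont (x : V d) : Continuous fun k : Fin d → ℝ => Real.cos (dotk k x) := by
  unfold dotk
  fun_prop

theorem LInv_cos_integrable (x : V d) : Integrable (fun k => Real.cos (dotk k x)) (muT d) :=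
  Integrable.of_bound (C := 1) (LInv_dotk_cont x).aestronglyMeasurable
    (Filter.Eventually.of_forall fun _ => Real.abs_cos_le_one _)

theorem LInv_int_cos_cos (x y : V d) :
    ∫ k, Real.cos (dotk k y) * Real.cos (dotk k x) ∂muT d
      = ((if y = x then 1 else 0) + (if y = -x then 1 else 0)) / 2 := by
  have h1 : ∀ k : Fin d → ℝ, Real.cos (dotk k y) * Real.cos (dotk k x)
      = (Real.cos (dotk k (y - x)) + Real.cos (dotk k (y + x))) / 2 := by
    intro k
    have h2 : dotk k (y - x) = dotk k y - dotk k x := by
      unfold dotk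
      rw [← Finset.sum_sub_distrib]
      refine Finset.sum_congr rfl fun i _ => ?_
      rw [Pi.sub_apply]; push_cast; ring
    have h3 : dotk k (y + x) = dotk k y + dotk k x := by
      unfold dotk
      rw [← Finset.sum_add_distrib]
      refine Finset.sum_congr rfl fun i _ => ?_
      rw [Pi.add_apply]; push_cast; ring
    rw [h2, h3, Real.cos_sub, Real.cos_add]
    ring
  simp_rw [h1]
  rw [integral_div, integral_add (LInv_cos_integrable _) (LInv_cos_integrable _), int_cos_dotk,
    int_cos_dotk]
  simp only [sub_eq_zero, add_eq_zero_iff_eq_neg]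

theorem ct_integrable (hf : Summable f) : Integrable (ct f) (muT d) :=
  Integrable.of_bound (C := ∑' x, |f x|) (ct_continuous hf).aestronglyMeasurable
    (Filter.Eventually.of_forall fun k => abs_ct_le hf k)

/-- termwise integration against a cosine series -/
theorem LInv_termwise (hg : Summable g) {F : (Fin d → ℝ) → ℝ} (hF : Integrable F (muT d)) :
    HasSum (fun y => g y * ∫ k, F k * Real.cos (dotk k y) ∂muT d)
      (∫ k, F k * ct g k ∂muT d) := by
  have hint : ∀ y : V d, Integrable (fun k => F k * Real.cos (dotk k y)) (muT d) := fun y =>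
    hF.mul_bdd (c := 1) (LInv_dotk_cont y).aestronglyMeasurable
      (Filter.Eventually.of_forall fun _ => Real.abs_cos_le_one _)
  have h1 : ∀ y : V d, Integrable (fun k => g y * (F k * Real.cos (dotk k y))) (muT d) := fun y =>
    (hint y).const_mul _
  have h2 : Summable fun y : V d => ∫ k, ‖g y * (F k * Real.cos (dotk k y))‖ ∂muT d := by
    refine Summable.of_nonneg_of_le (fun y => integral_nonneg fun k => norm_nonneg _) (fun y => ?_)
      (hg.abs.mul_right (∫ k, ‖F k‖ ∂muT d))
    rw [← integral_const_mul]
    refine integral_mono (h1 y).norm (hF.norm.const_mul _) fun k => ?_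
    simp only [norm_mul, Real.norm_eq_abs]
    refine mul_le_mul_of_nonneg_left ?_ (abs_nonneg _)
    exact mul_le_of_le_one_right (abs_nonneg _) (Real.abs_cos_le_one _)
  have h3 := hasSum_integral_of_summable_integral_norm h1 h2
  simp_rw [integral_const_mul] at h3
  have h4 : (fun k => ∑' y, g y * (F k * Real.cos (dotk k y))) = fun k => F k * ct g k := by
    funext k
    unfold ct
    rw [← tsum_mul_left]
    exact tsum_congr fun y => by ring
  rw [h4] at h3
  exact h3

theorem inversion (hf : Summable f) (hfe : ∀ x, f (-x) = f x) (x : V d) :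
    f x = ∫ k, ct f k * Real.cos (dotk k x) ∂muT d := by
  have h1 := (LInv_termwise hf (LInv_cos_integrable x)).tsum_eq
  have h2 : ∀ y : V d, f y * ∫ k, Real.cos (dotk k x) * Real.cos (dotk k y) ∂muT d
      = f y * (if y = x then 1 else 0) / 2 + f y * (if y = -x then 1 else 0) / 2 := by
    intro y
    have h3 : ∀ k : Fin d → ℝ, Real.cos (dotk k x) * Real.cos (dotk k y)
        = Real.cos (dotk k y) * Real.cos (dotk k x) := fun k => mul_comm _ _
    simp_rw [h3]
    rw [LInv_int_cos_cos]
    ring
  simp_rw [h2] at h1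
  have h5 : (fun k : Fin d → ℝ => ct f k * Real.cos (dotk k x))
      = fun k => Real.cos (dotk k x) * ct f k := funext fun k => mul_comm _ _
  rw [h5, ← h1]
  have s1 : HasSum (fun y : V d => f y * (if y = x then 1 else 0) / 2) (f x / 2) := by
    have := hasSum_single (f := fun y : V d => f y * (if y = x then 1 else 0) / 2) x
      (fun y hy => by simp only [if_neg hy, mul_zero, zero_div])
    simpa using this
  have s2 : HasSum (fun y : V d => f y * (if y = -x then 1 else 0) / 2) (f (-x) / 2) := by
    have := hasSum_single (f := fun y : V d => f y * (if y = -x then 1 else 0) / 2) (-x)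
      (fun y hy => by simp only [if_neg hy, mul_zero, zero_div])
    simpa using this
  rw [(s1.add s2).tsum_eq, hfe]
  ring

theorem abs_le_int_ct (hf : Summable f) (hfe : ∀ x, f (-x) = f x) (x : V d) :
    |f x| ≤ ∫ k, |ct f k| ∂muT d := by
  rw [inversion hf hfe x]
  refine (norm_integral_le_integral_norm
    (fun k : Fin d → ℝ => ct f k * Real.cos (dotk k x))).trans ?_
  refine integral_mono ?_ (ct_integrable hf).abs fun k => ?_
  · refine Integrable.norm ?_
    exact (ct_integrable hf).mul_bdd (c := 1) (LInv_dotk_cont x).aestronglyMeasurable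
      (Filter.Eventually.of_forall fun _ => Real.abs_cos_le_one _)
  · simp only [norm_mul, Real.norm_eq_abs]
    exact mul_le_of_le_one_right (abs_nonneg _) (Real.abs_cos_le_one _)

/-- Parseval's formula (`g` is a test function) -/
theorem parseval (hf : Summable f) (hfe : ∀ x, f (-x) = f x) (hg : Summable g) :
    ∑' x, f x * g x = ∫ k, ct f k * ct g k ∂muT d := by
  rw [← (LInv_termwise hg (ct_integrable hf)).tsum_eq]
  refine tsum_congr fun x => ?_
  rw [← inversion hf hfe x, mul_comm]

end Pool.Agent.helper55.FP
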