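import Pool.Agent.helper90.FP.LADefs

/-!
# FP project, part L2, module LRW: integrals of simple random walk as `d` grows
-/

set_option autoImplicit false

open MeasureTheory Set

namespace Pool.Agent.helper55.FP

variable {d : ℕ}

/-! ### the one dimensional law -/

theorem LRW_integral_circ (f : ℝ → ℝ) :
    ∫ t, f t ∂circ = 1 / (2 * Real.pi) * ∫ t in (-Real.pi)..Real.pi, f t := by
  have hpi := Real.pi_pos
  rw [circ, integral_smul_measure, intervalIntegral.integral_of_le (by linarith),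
    ENNReal.toReal_ofReal (by positivity), smul_eq_mul]

theorem LRW_int_cos : ∫ t, Real.cos t ∂circ = 0 := by
  rw [LRW_integral_circ, integral_cos]
  simp

theorem LRW_int_cos_sq : ∫ t, Real.cos t ^ 2 ∂circ = 1 / 2 := by
  have hpi := Real.pi_pos
  rw [LRW_integral_circ, integral_cos_sq]
  simp only [Real.cos_pi, Real.sin_pi, Real.cos_neg, Real.sin_neg]
  field_simp
  ring

theorem LRW_cos_ne_one : ∀ᵐ t ∂circ, Real.cos t < 1 := by
  have h1 : ∀ᵐ t ∂(volume : Measure ℝ).restrict (Ioc (-Real.pi) Real.pi), Real.cos t < 1 := by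
    have h0 : ∀ᵐ t ∂(volume : Measure ℝ), t ≠ 0 := by
      rw [ae_iff]; simp
    filter_upwards [ae_restrict_of_ae h0, ae_restrict_mem measurableSet_Ioc] with t ht hm
    have habs : |t| ≤ Real.pi := abs_le.2 ⟨hm.1.le, hm.2⟩
    have h := Real.cos_le_one_sub_mul_cos_sq habs
    have : 0 < 2 / Real.pi ^ 2 * t ^ 2 := by
      have := Real.pi_pos
      positivity
    linarith
  exact Measure.ae_smul_measure h1 _

theorem LRW_circ_mem : ∀ᵐ t ∂circ, |t| ≤ Real.pi ∧ t ≠ 0 := by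
  have h1 : ∀ᵐ t ∂(volume : Measure ℝ).restrict (Ioc (-Real.pi) Real.pi),
      |t| ≤ Real.pi ∧ t ≠ 0 := by
    have h0 : ∀ᵐ t ∂(volume : Measure ℝ), t ≠ 0 := by
      rw [ae_iff]; simp
    filter_upwards [ae_restrict_of_ae h0, ae_restrict_mem measurableSet_Ioc] with t ht hm
    exact ⟨abs_le.2 ⟨hm.1.le, hm.2⟩, ht⟩
  exact Measure.ae_smul_measure h1 _

theorem LRW_eval_ae {P : ℝ → Prop} (h : ∀ᵐ t ∂circ, P t) (i : Fin d) :
    ∀ᵐ k ∂muT d, P (k i) :=
  (measurePreserving_eval (fun _ : Fin d => circ) i).quasiMeasurePreserving.ae h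

/-! ### second moment -/

theorem LRW_integrable_bdd {f : (Fin d → ℝ) → ℝ} (hf : Measurable f) (C : ℝ)
    (hC : ∀ k, |f k| ≤ C) : Integrable f (muT d) :=
  Integrable.of_bound hf.aestronglyMeasurable C (Filter.Eventually.of_forall hC)

theorem LRW_int_cos_mul (i j : Fin d) :
    ∫ k, Real.cos (k i) * Real.cos (k j) ∂muT d = if i = j then 1 / 2 else 0 := by
  split_ifs with hij
  · subst hij
    have h := (measurePreserving_eval (fun _ : Fin d => circ) i)
    have h2 : ∫ k, (fun t : ℝ => Real.cos t ^ 2) (Function.eval i k)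
        ∂Measure.pi (fun _ : Fin d => circ) = ∫ t, Real.cos t ^ 2 ∂circ := by
      rw [← h.map_eq, integral_map h.measurable.aemeasurable]
      · rw [h.map_eq]
      · exact (by fun_prop : Measurable fun t : ℝ => Real.cos t ^ 2).aestronglyMeasurable
    rw [LRW_int_cos_sq] at h2
    rw [muT, ← h2]
    refine integral_congr_ae (Filter.Eventually.of_forall fun k => ?_)
    simp [sq]
  · have h : ∀ k : Fin d → ℝ, Real.cos (k i) * Real.cos (k j)
        = ∏ l, (if l = i ∨ l = j then Real.cos else fun _ => 1) (k l) := by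
      intro k
      have h1 : ∀ l, ((if l = i ∨ l = j then Real.cos else fun _ => (1 : ℝ)) (k l))
          = (if l = i then Real.cos (k l) else 1) * (if l = j then Real.cos (k l) else 1) := by
        intro l
        by_cases h1 : l = i
        · have h2 : l ≠ j := fun h => hij (h1.symm.trans h)
          have h3 : ¬ i = j := hij
          simp [h1, h3]
        · by_cases h2 : l = j
          · have h3 : ¬ j = i := fun h => hij h.symm
            simp [h2, h3]
          · simp [h1, h2]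
      rw [Finset.prod_congr rfl (fun l _ => h1 l), Finset.prod_mul_distrib,
        Finset.prod_ite_eq' Finset.univ i, Finset.prod_ite_eq' Finset.univ j]
      simp
    simp_rw [h]
    rw [muT, integral_fintype_prod_eq_prod (f := fun l : Fin d =>
      (if l = i ∨ l = j then Real.cos else fun _ => (1 : ℝ)))]
    refine Finset.prod_eq_zero (Finset.mem_univ i) ?_
    simp [LRW_int_cos]

theorem int_Dh_sq (hd : 1 ≤ d) : ∫ k, Dh k ^ 2 ∂muT d = 1 / (2 * d) := by
  have hd0 : (d : ℝ) ≠ 0 := by positivity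
  have h : ∀ k : Fin d → ℝ, Dh k ^ 2
      = (1 / (d : ℝ) ^ 2) * ∑ i, ∑ j, Real.cos (k i) * Real.cos (k j) := by
    intro k
    rw [Dh, div_pow, sq (∑ i, Real.cos (k i)), Finset.sum_mul_sum]
    ring
  simp_rw [h]
  rw [integral_const_mul, integral_finsetSum]
  · have h2 : ∀ i : Fin d, ∫ k, ∑ j, Real.cos (k i) * Real.cos (k j) ∂muT d = 1 / 2 := by
      intro i
      rw [integral_finsetSum]
      · simp_rw [LRW_int_cos_mul]
        simp
      · intro j _
        refine LRW_integrable_bdd (by fun_prop) 1 fun k => ?_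
        rw [abs_mul]
        exact mul_le_one₀ (Real.abs_cos_le_one _) (abs_nonneg _) (Real.abs_cos_le_one _)
    simp_rw [h2]
    simp only [Finset.sum_const, Finset.card_univ, Fintype.card_fin, nsmul_eq_mul]
    field_simp
  · intro i _
    refine integrable_finsetSum _ fun j _ => ?_
    refine LRW_integrable_bdd (by fun_prop) 1 fun k => ?_
    rw [abs_mul]
    exact mul_le_one₀ (Real.abs_cos_le_one _) (abs_nonneg _) (Real.abs_cos_le_one _)

theorem LRW_abs_Dh_le (k : Fin d → ℝ) : |Dh k| ≤ 1 := by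
  rcases Nat.eq_zero_or_pos d with h0 | hd
  · subst h0; simp [Dh]
  · rw [Dh, abs_div, Nat.abs_cast, div_le_one (by positivity)]
    calc |∑ i, Real.cos (k i)| ≤ ∑ i : Fin d, |Real.cos (k i)| := Finset.abs_sum_le_sum_abs _ _
      _ ≤ ∑ _i : Fin d, (1 : ℝ) := Finset.sum_le_sum fun i _ => Real.abs_cos_le_one _
      _ = d := by simp

theorem LRW_measurable_Dh : Measurable (Dh : (Fin d → ℝ) → ℝ) := by
  unfold Dh
  fun_prop

theorem Dh_lt_one_ae (hd : 1 ≤ d) : ∀ᵐ k ∂muT d, Dh k < 1 := by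
  filter_upwards [LRW_eval_ae LRW_cos_ne_one (⟨0, hd⟩ : Fin d)] with k hk
  rw [Dh, div_lt_one (by positivity)]
  calc ∑ i, Real.cos (k i) < ∑ _i : Fin d, (1 : ℝ) :=
        Finset.sum_lt_sum (fun i _ => Real.cos_le_one _) ⟨⟨0, hd⟩, Finset.mem_univ _, hk⟩
    _ = d := by simp

/-! ### AM-GM -/

theorem LRW_circ_rpow {u : ℝ} (hu : u < 1) :
    Integrable (fun t : ℝ => |t| ^ (-u)) circ ∧
      ∫ t, |t| ^ (-u) ∂circ = Real.pi ^ (-u) / (1 - u) := by
  have hpi := Real.pi_pos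
  have hpos : IntervalIntegrable (fun t : ℝ => |t| ^ (-u)) volume 0 Real.pi := by
    refine (intervalIntegral.intervalIntegrable_rpow' (a := 0) (b := Real.pi)
      (by linarith : -1 < -u)).congr ?_
    intro t ht
    rw [uIoc_of_le hpi.le] at ht
    simp only [abs_of_pos ht.1]
  have hneg : IntervalIntegrable (fun t : ℝ => |t| ^ (-u)) volume (-Real.pi) 0 := by
    have h := (IntervalIntegrable.iff_comp_neg (a := 0) (b := Real.pi)
      (f := fun t : ℝ => |t| ^ (-u)) (by simp)).1 hpos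
    simp only [abs_neg, neg_zero] at h
    exact h.symm
  have hint := hneg.trans hpos
  have hval0 : ∫ t in (0 : ℝ)..Real.pi, |t| ^ (-u) = Real.pi ^ (1 - u) / (1 - u) := by
    have h1 : ∫ t in (0 : ℝ)..Real.pi, |t| ^ (-u) = ∫ t in (0 : ℝ)..Real.pi, t ^ (-u) := by
      refine intervalIntegral.integral_congr_ae (Filter.Eventually.of_forall fun t ht => ?_)
      rw [uIoc_of_le hpi.le] at ht
      simp only [abs_of_pos ht.1]
    rw [h1, integral_rpow (Or.inl (by linarith)), Real.zero_rpow (by linarith : -u + 1 ≠ 0)]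
    rw [sub_zero, show -u + 1 = 1 - u by ring]
  have hval1 : ∫ t in (-Real.pi)..0, |t| ^ (-u) = Real.pi ^ (1 - u) / (1 - u) := by
    rw [← hval0]
    have h := intervalIntegral.integral_comp_neg (f := fun t : ℝ => |t| ^ (-u)) (a := 0)
      (b := Real.pi)
    simp only [abs_neg, neg_zero] at h
    exact h.symm
  refine ⟨?_, ?_⟩
  · rw [circ]
    refine Integrable.smul_measure ?_ ENNReal.ofReal_ne_top
    rw [← IntegrableOn, ← intervalIntegrable_iff_integrableOn_Ioc_of_le (by linarith)]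
    exact hint
  · rw [LRW_integral_circ, ← intervalIntegral.integral_add_adjacent_intervals hneg hpos, hval0,
      hval1]
    have h1 : Real.pi ^ (1 - u) = Real.pi * Real.pi ^ (-u) := by
      rw [show 1 - u = 1 + -u by ring, Real.rpow_add hpi, Real.rpow_one]
    rw [h1]
    have h2 : 1 - u ≠ 0 := by linarith
    field_simp
    ring

theorem LRW_prod_int {u : ℝ} (hu : u < 1) :
    Integrable (fun k : Fin d → ℝ => ∏ i, |k i| ^ (-u)) (muT d) ∧
      ∫ k, ∏ i, |k i| ^ (-u) ∂muT d = (Real.pi ^ (-u) / (1 - u)) ^ d := by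
  obtain ⟨h1, h2⟩ := LRW_circ_rpow hu
  refine ⟨Integrable.fintype_prod (f := fun _ t => |t| ^ (-u)) (fun _ => h1), ?_⟩
  rw [muT, integral_fintype_prod_eq_prod (f := fun _ t => |t| ^ (-u)), h2, Finset.prod_const,
    Finset.card_univ, Fintype.card_fin]

/-- pointwise lower bound by the geometric mean -/
theorem LRW_one_sub_Dh (hd : 1 ≤ d) {k : Fin d → ℝ} (hk : ∀ i, |k i| ≤ Real.pi) :
    2 / Real.pi ^ 2 * ∏ i, |k i| ^ (2 / (d : ℝ)) ≤ 1 - Dh k := by
  have hpi := Real.pi_pos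
  have hd0 : (0 : ℝ) < d := by positivity
  have h1 : 1 - Dh k = ∑ i : Fin d, (1 / (d : ℝ)) * (1 - Real.cos (k i)) := by
    rw [← Finset.mul_sum, Finset.sum_sub_distrib]
    simp only [Finset.sum_const, Finset.card_univ, Fintype.card_fin, nsmul_eq_mul, mul_one, Dh]
    field_simp
  have h2 : ∑ i : Fin d, (1 / (d : ℝ)) * (2 / Real.pi ^ 2 * |k i| ^ 2)
      ≤ ∑ i : Fin d, (1 / (d : ℝ)) * (1 - Real.cos (k i)) := by
    refine Finset.sum_le_sum fun i _ => mul_le_mul_of_nonneg_left ?_ (by positivity)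
    have := Real.cos_le_one_sub_mul_cos_sq (hk i)
    rw [sq_abs]; linarith
  have h3 : ∑ i : Fin d, (1 / (d : ℝ)) * (2 / Real.pi ^ 2 * |k i| ^ 2)
      = 2 / Real.pi ^ 2 * ∑ i : Fin d, (1 / (d : ℝ)) * |k i| ^ 2 := by
    rw [Finset.mul_sum]
    exact Finset.sum_congr rfl fun i _ => by ring
  have h4 := Real.geom_mean_le_arith_mean_weighted Finset.univ (fun _ : Fin d => 1 / (d : ℝ))
    (fun i => |k i| ^ 2) (fun _ _ => by positivity) (by simp; field_simp)
    (fun _ _ => by positivity)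
  have h5 : ∏ i : Fin d, (|k i| ^ 2) ^ (1 / (d : ℝ)) = ∏ i, |k i| ^ (2 / (d : ℝ)) := by
    refine Finset.prod_congr rfl fun i _ => ?_
    rw [← Real.rpow_natCast, ← Real.rpow_mul (abs_nonneg _)]
    congr 1
    push_cast
    ring
  rw [h1]
  refine le_trans ?_ h2
  rw [h3, ← h5]
  exact mul_le_mul_of_nonneg_left h4 (by positivity)

theorem LRW_inv_pow_le (m : ℕ) (hd1 : 1 ≤ d) {k : Fin d → ℝ}
    (hk : ∀ i, |k i| ≤ Real.pi ∧ k i ≠ 0) :
    (1 - Dh k)⁻¹ ^ m ≤ (Real.pi ^ 2 / 2) ^ m * ∏ i, |k i| ^ (-(2 * m / (d : ℝ))) := by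
  have hpi := Real.pi_pos
  have hprod : 0 < ∏ i, |k i| ^ (2 / (d : ℝ)) :=
    Finset.prod_pos fun i _ => Real.rpow_pos_of_pos (abs_pos.2 (hk i).2) _
  have h1 := LRW_one_sub_Dh hd1 (k := k) fun i => (hk i).1
  have hpos : 0 < 2 / Real.pi ^ 2 * ∏ i, |k i| ^ (2 / (d : ℝ)) := by positivity
  have h2 : (1 - Dh k)⁻¹ ≤ (2 / Real.pi ^ 2 * ∏ i, |k i| ^ (2 / (d : ℝ)))⁻¹ :=
    inv_anti₀ hpos h1
  have h3 : 0 ≤ (1 - Dh k)⁻¹ := inv_nonneg.2 (hpos.le.trans h1)
  refine (pow_le_pow_left₀ h3 h2 m).trans (le_of_eq ?_)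
  rw [mul_inv, mul_pow, inv_div, ← Finset.prod_inv_distrib, ← Finset.prod_pow]
  congr 1
  refine Finset.prod_congr rfl fun i _ => ?_
  rw [← Real.rpow_neg (abs_nonneg _), ← Real.rpow_natCast, ← Real.rpow_mul (abs_nonneg _)]
  congr 1
  ring

/-- AM-GM bound for the negative moments of `1 - Dh` -/
theorem int_inv_pow (m : ℕ) (hd : 4 * m ≤ d) (hd1 : 1 ≤ d) :
    Integrable (fun k => (1 - Dh k)⁻¹ ^ m) (muT d) ∧
      ∫ k, (1 - Dh k)⁻¹ ^ m ∂muT d ≤ Real.exp (4 * m) := by
  have hpi := Real.pi_pos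
  have hd0 : (0 : ℝ) < d := by positivity
  have hdm : (4 : ℝ) * m ≤ d := by exact_mod_cast hd
  set u : ℝ := 2 * m / (d : ℝ) with hu
  have hu0 : 0 ≤ u := by positivity
  have hu1 : u ≤ 1 / 2 := by
    rw [hu, div_le_iff₀ hd0]; linarith
  obtain ⟨hI, hV⟩ := LRW_prod_int (d := d) (by linarith : u < 1)
  have hae : ∀ᵐ k ∂muT d, ∀ i : Fin d, |k i| ≤ Real.pi ∧ k i ≠ 0 :=
    ae_all_iff.2 fun i => LRW_eval_ae LRW_circ_mem i
  have hbd : ∀ᵐ k ∂muT d, (1 - Dh k)⁻¹ ^ m ≤ (Real.pi ^ 2 / 2) ^ m * ∏ i, |k i| ^ (-u) := by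
    filter_upwards [hae] with k hk
    exact LRW_inv_pow_le m hd1 hk
  have hnn : ∀ k : Fin d → ℝ, 0 ≤ (1 - Dh k)⁻¹ ^ m := fun k =>
    pow_nonneg (inv_nonneg.2 (by linarith [(abs_le.1 (LRW_abs_Dh_le k)).2])) m
  have hmeas : Measurable (fun k : Fin d → ℝ => (1 - Dh k)⁻¹ ^ m) :=
    ((measurable_const.sub LRW_measurable_Dh).inv).pow_const m
  have hint : Integrable (fun k : Fin d → ℝ => (1 - Dh k)⁻¹ ^ m) (muT d) := by
    refine Integrable.mono' (hI.const_mul ((Real.pi ^ 2 / 2) ^ m)) hmeas.aestronglyMeasurable ?_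
    filter_upwards [hbd] with k hk
    rw [Real.norm_of_nonneg (hnn k)]
    exact hk
  refine ⟨hint, ?_⟩
  calc ∫ k, (1 - Dh k)⁻¹ ^ m ∂muT d
      ≤ ∫ k, (Real.pi ^ 2 / 2) ^ m * ∏ i, |k i| ^ (-u) ∂muT d :=
        integral_mono_ae hint (hI.const_mul _) hbd
    _ = (Real.pi ^ 2 / 2) ^ m * (Real.pi ^ (-u) / (1 - u)) ^ d := by
        rw [integral_const_mul, hV]
    _ = (1 / 2) ^ m * ((1 - u)⁻¹) ^ d := by
        have h1 : (Real.pi ^ (-u)) ^ d = (Real.pi ^ (2 * m))⁻¹ := by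
          rw [← Real.rpow_natCast, ← Real.rpow_mul hpi.le, ← Real.rpow_natCast (Real.pi) (2 * m),
            ← Real.rpow_neg hpi.le]
          congr 1
          rw [hu]; push_cast
          field_simp
        rw [div_pow (Real.pi ^ (-u)), h1, div_pow, inv_pow, ← pow_mul]
        have h2 : Real.pi ^ (2 * m) ≠ 0 := by positivity
        have h3 : (1 - u) ^ d ≠ 0 := pow_ne_zero _ (by linarith)
        rw [one_div_pow]
        field_simp
    _ ≤ 1 * (Real.exp (2 * u)) ^ d := by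
        refine mul_le_mul (pow_le_one₀ (by norm_num) (by norm_num)) ?_ (by
          have : 0 ≤ (1 - u)⁻¹ := inv_nonneg.2 (by linarith)
          positivity) zero_le_one
        refine pow_le_pow_left₀ (inv_nonneg.2 (by linarith)) ?_ d
        rw [inv_le_iff_one_le_mul₀ (by linarith)]
        have h1 := Real.add_one_le_exp (2 * u)
        have h2 : (2 * u + 1) * (1 - u) ≤ Real.exp (2 * u) * (1 - u) :=
          mul_le_mul_of_nonneg_right h1 (by linarith)
        nlinarith [mul_nonneg hu0 (by linarith : 0 ≤ 1 - 2 * u)]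
    _ = Real.exp (4 * m) := by
        rw [one_mul, ← Real.exp_nat_mul]
        congr 1
        rw [hu]
        field_simp
        ring

theorem int_abs_Dh_inv_pow (m : ℕ) (hd : 8 * m ≤ d) (hd1 : 1 ≤ d) :
    Integrable (fun k => |Dh k| * (1 - Dh k)⁻¹ ^ m) (muT d) ∧
      ∫ k, |Dh k| * (1 - Dh k)⁻¹ ^ m ∂muT d ≤ Real.exp (4 * m) / Real.sqrt (2 * d) := by
  have hd0 : (0 : ℝ) < d := by positivity
  obtain ⟨hI1, -⟩ := int_inv_pow m (by omega : 4 * m ≤ d) hd1
  obtain ⟨hI2, hV2⟩ := int_inv_pow (2 * m) (by omega : 4 * (2 * m) ≤ d) hd1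
  have hnn : ∀ k : Fin d → ℝ, 0 ≤ (1 - Dh k)⁻¹ ^ m := fun k =>
    pow_nonneg (inv_nonneg.2 (by linarith [(abs_le.1 (LRW_abs_Dh_le k)).2])) m
  have hmeas : Measurable (fun k : Fin d → ℝ => (1 - Dh k)⁻¹ ^ m) :=
    ((measurable_const.sub LRW_measurable_Dh).inv).pow_const m
  have hmeasD : Measurable (fun k : Fin d → ℝ => |Dh k|) := by
    exact continuous_abs.measurable.comp LRW_measurable_Dh
  have hint : Integrable (fun k : Fin d → ℝ => |Dh k| * (1 - Dh k)⁻¹ ^ m) (muT d) := by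
    refine Integrable.mono' hI1 (hmeasD.mul hmeas).aestronglyMeasurable
      (Filter.Eventually.of_forall fun k => ?_)
    rw [Real.norm_of_nonneg (mul_nonneg (abs_nonneg _) (hnn k))]
    exact mul_le_of_le_one_left (hnn k) (LRW_abs_Dh_le k)
  refine ⟨hint, ?_⟩
  have hDsq : Integrable (fun k : Fin d → ℝ => Dh k ^ 2) (muT d) := by
    refine LRW_integrable_bdd (LRW_measurable_Dh.pow_const 2) 1 fun k => ?_
    rw [abs_pow]
    exact pow_le_one₀ (abs_nonneg _) (LRW_abs_Dh_le k)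
  set s : ℝ := Real.sqrt (2 * d) with hs
  have hs0 : 0 < s := Real.sqrt_pos.2 (by positivity)
  have hss : s * s = 2 * d := Real.mul_self_sqrt (by positivity)
  set E : ℝ := Real.exp (4 * m) with hE
  have hE0 : 0 < E := Real.exp_pos _
  have hEE : Real.exp (4 * (2 * m : ℕ)) = E * E := by
    rw [hE, ← Real.exp_add]; congr 1; push_cast; ring
  have hpt : ∀ k : Fin d → ℝ, |Dh k| * (1 - Dh k)⁻¹ ^ m
      ≤ (E * s / 2) * Dh k ^ 2 + (1 / (2 * (E * s))) * (1 - Dh k)⁻¹ ^ (2 * m) := by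
    intro k
    set a := |Dh k| with ha
    set b := (1 - Dh k)⁻¹ ^ m with hb
    have h1 : Dh k ^ 2 = a ^ 2 := by rw [ha, sq_abs]
    have h2 : (1 - Dh k)⁻¹ ^ (2 * m) = b ^ 2 := by rw [hb, ← pow_mul, mul_comm]
    rw [h1, h2]
    have hES : 0 < E * s := by positivity
    have h3 : (E * s / 2) * a ^ 2 + (1 / (2 * (E * s))) * b ^ 2 - a * b
        = (E * s * a - b) ^ 2 / (2 * (E * s)) := by
      field_simp
      ring
    have h4 : 0 ≤ (E * s * a - b) ^ 2 / (2 * (E * s)) := by positivity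
    linarith
  calc ∫ k, |Dh k| * (1 - Dh k)⁻¹ ^ m ∂muT d
      ≤ ∫ k, ((E * s / 2) * Dh k ^ 2 + (1 / (2 * (E * s))) * (1 - Dh k)⁻¹ ^ (2 * m)) ∂muT d :=
        integral_mono hint ((hDsq.const_mul _).add (hI2.const_mul _)) hpt
    _ = (E * s / 2) * (1 / (2 * d))
          + (1 / (2 * (E * s))) * ∫ k, (1 - Dh k)⁻¹ ^ (2 * m) ∂muT d := by
        rw [integral_add (hDsq.const_mul _) (hI2.const_mul _), integral_const_mul,
          integral_const_mul, int_Dh_sq hd1]
    _ ≤ (E * s / 2) * (1 / (2 * d)) + (1 / (2 * (E * s))) * (E * E) := by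
        rw [hEE] at hV2
        have : 0 ≤ 1 / (2 * (E * s)) := by positivity
        linarith [mul_le_mul_of_nonneg_left hV2 this]
    _ = E / s := by
        rw [← hss]
        field_simp
        ring

end Pool.Agent.helper55.FP
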