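import Pool.Agent.helper90.FP.LTrig
import Pool.Agent.helper90.FP.LInv
import Pool.Agent.helper90.FP.LRW

/-!
# FP project, part L2, module LIR: the infrared bound at fixed `p`
-/

set_option autoImplicit false

open MeasureTheory Set

namespace Pool.Agent.helper55.FP

variable {d : ℕ} {p ε : ℝ} {Q : V d → ℝ}

theorem LIR_abs_summable (h : LacePi d p ε Q) : Summable (fun x => |Q x|) := by
  refine Summable.of_nonneg_of_le (fun x => abs_nonneg _) (fun x => ?_) h.summable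
  have h1 : 0 ≤ l1 x ^ 2 := sq_nonneg _
  nlinarith [abs_nonneg (Q x)]

theorem LIR_sum_le (h : LacePi d p ε Q) : ∑' x, |Q x| ≤ ε := by
  refine le_trans (Summable.tsum_le_tsum (fun x => ?_) (LIR_abs_summable h) h.summable) h.sum_le
  have h1 : 0 ≤ l1 x ^ 2 := sq_nonneg _
  nlinarith [abs_nonneg (Q x)]

/-- the algebra of the infrared bound -/
theorem LIR_alg {a ε g0 gk D T χ : ℝ} (ha : 0 ≤ a) (hε : ε ≤ 1 / 32) (hg0 : |g0 - 1| ≤ ε)
    (hgk : |gk - 1| ≤ ε) (hD : D ≤ 1) (hD' : -1 ≤ D) (hχ : 1 ≤ χ) (h0 : (1 - a * g0) * χ = g0)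
    (hk : (1 - a * D * gk) * T = gk) (hdiff : |g0 - gk| ≤ ε * (1 - D)) :
    (0 ≤ T ∧ T * (1 - D) ≤ 3) ∧ a * (1 - ε) ≤ 1 ∧ 1 - ε - 1 / χ ≤ a := by
  have hε0 : 0 ≤ ε := le_trans (abs_nonneg _) hg0
  obtain ⟨h1, h2⟩ := abs_le.1 hg0
  obtain ⟨h3, h4⟩ := abs_le.1 hgk
  obtain ⟨h5, h6⟩ := abs_le.1 hdiff
  have hg0pos : 0 < g0 := by linarith
  have hgkpos : 0 < gk := by linarith
  have hχpos : 0 < χ := by linarith
  have hlam : 0 < 1 - a * g0 := by
    by_contra hcon
    rw [not_lt] at hcon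
    nlinarith
  have ha1 : a * (1 - ε) ≤ 1 := by nlinarith
  have ha2 : a ≤ 2 := by nlinarith
  have hag : 0 ≤ a * g0 := mul_nonneg ha hg0pos.le
  have hD1 : 0 ≤ 1 - D := by linarith
  have hD2 : (1 - D) / 2 ≤ 1 := by linarith
  -- the denominator
  have hF : (1 / 2 - 2 * ε) * (1 - D) ≤ 1 - a * D * gk := by
    have e1 : 1 - a * D * gk = (1 - a * g0) + a * g0 * (1 - D) + a * (D * (g0 - gk)) := by ring
    have e2 : -(2 * ε * (1 - D)) ≤ a * (D * (g0 - gk)) := by
      have e3 : |a * (D * (g0 - gk))| ≤ 2 * (ε * (1 - D)) := by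
        rw [abs_mul, abs_mul, abs_of_nonneg ha]
        have hDabs : |D| ≤ 1 := abs_le.2 ⟨hD', hD⟩
        have e4 : |D| * |g0 - gk| ≤ 1 * (ε * (1 - D)) :=
          mul_le_mul hDabs hdiff (abs_nonneg _) zero_le_one
        have e5 : 0 ≤ |D| * |g0 - gk| := by positivity
        calc a * (|D| * |g0 - gk|) ≤ 2 * (|D| * |g0 - gk|) := mul_le_mul_of_nonneg_right ha2 e5
          _ ≤ 2 * (ε * (1 - D)) := by linarith
      have := (abs_le.1 e3).1
      linarith
    have e6 : (1 - a * g0) * ((1 - D) / 2) ≤ (1 - a * g0) * 1 :=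
      mul_le_mul_of_nonneg_left hD2 hlam.le
    have e7 : 0 ≤ a * g0 * (1 - D) := mul_nonneg hag hD1
    rw [e1]
    nlinarith
  have hFpos : 0 < 1 - a * D * gk := by
    rcases eq_or_lt_of_le hD1 with h7 | h7
    · have h8 : D = 1 := by linarith
      have h9 : g0 = gk := by
        have : |g0 - gk| ≤ 0 := by rw [h8, sub_self, mul_zero] at hdiff; exact hdiff
        have := abs_eq_zero.1 (le_antisymm this (abs_nonneg _))
        linarith
      rw [h8, ← h9, mul_one]
      exact hlam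
    · exact lt_of_lt_of_le (mul_pos (by linarith) h7) hF
  have hTpos : 0 < T := by
    by_contra hcon
    rw [not_lt] at hcon
    nlinarith
  refine ⟨⟨hTpos.le, ?_⟩, ha1, ?_⟩
  · have e1 : (1 / 2 - 2 * ε) * (T * (1 - D)) ≤ gk := by
      calc (1 / 2 - 2 * ε) * (T * (1 - D)) = ((1 / 2 - 2 * ε) * (1 - D)) * T := by ring
        _ ≤ (1 - a * D * gk) * T := mul_le_mul_of_nonneg_right hF hTpos.le
        _ = gk := hk
    have e2 : 0 ≤ T * (1 - D) := mul_nonneg hTpos.le hD1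
    nlinarith
  · have e1 : a * g0 = 1 - g0 / χ := by
      field_simp
      linarith
    have e2 : a = 1 / g0 - 1 / χ := by
      field_simp
      field_simp at e1
      linarith
    have e3 : 1 - ε ≤ 1 / g0 := by
      rw [le_div_iff₀ hg0pos]
      nlinarith
    linarith

theorem infrared (hd : 1 ≤ d) (hp : 0 ≤ p) (hdec : ExpDec d p) (h : LacePi d p ε Q)
    (hP : PermInv Q) (hε : ε ≤ 1 / 32) :
    IR 3 d p ∧ 2 * d * p * (1 - ε) ≤ 1 ∧ 1 - ε - 1 / chi d p ≤ 2 * d * p := by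
  have hQa := LIR_abs_summable h
  have hQ : Summable Q := hQa.of_abs
  have hsum := LIR_sum_le h
  have hτ : Summable (tau p : V d → ℝ) := tau_summable hdec
  have hτe : ∀ x : V d, tau p (-x) = tau p x := tau_neg p
  have hB : Summable (conv (pJ p) (tau p) : V d → ℝ) := conv_summable (pJ_summable p) hτ
  have hBe : ∀ x : V d, conv (pJ p) (tau p) (-x) = conv (pJ p) (tau p) x :=
    fun x => conv_even (pJ_even p) hτe x
  have hctQ : ∀ k, |ct Q k| ≤ ε := fun k => (abs_ct_le hQ k).trans hsum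
  have heq : ∀ k : Fin d → ℝ, (1 - 2 * d * p * Dh k * (1 + ct Q k)) * ct (tau p) k =
      1 + ct Q k := by
    intro k
    have e1 : (tau p : V d → ℝ) = fun x => (fun y => (fun z => dirac0 z + Q z) y +
        conv (pJ p) (tau p) y) x + conv Q (conv (pJ p) (tau p)) x := funext h.eqn
    have e2 : ct (tau p) k = 1 + ct Q k + 2 * d * p * Dh k * ct (tau p) k +
        ct Q k * (2 * d * p * Dh k * ct (tau p) k) := by
      conv_lhs => rw [e1]
      rw [ct_add ((dirac0_summable.add hQ).add hB) (conv_summable hQ hB),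
        ct_add (dirac0_summable.add hQ) hB, ct_add dirac0_summable hQ, ct_dirac0,
        ct_conv hQ hB hBe, ct_conv (pJ_summable p) hτ hτe, ct_pJ]
    linear_combination e2
  have hD0 : Dh (0 : Fin d → ℝ) = 1 := by
    have : (d : ℝ) ≠ 0 := by positivity
    simp [Dh, this]
  have hdiff : ∀ k, |(1 + ct Q 0) - (1 + ct Q k)| ≤ ε * (1 - Dh k) := by
    intro k
    have e1 : (1 + ct Q 0) - (1 + ct Q k) = ∑' x, Q x * (1 - Real.cos (dotk k x)) := by
      rw [ct_zero]
      unfold ct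
      rw [add_sub_add_left_eq_sub, ← Summable.tsum_sub hQ (ct_summable hQ k)]
      refine tsum_congr (fun x => by ring)
    have hcos : ∀ x : V d, 0 ≤ 1 - Real.cos (dotk k x) := fun x => by
      linarith [Real.cos_le_one (dotk k x)]
    have hs : Summable (fun x => |Q x| * (1 - Real.cos (dotk k x))) := by
      refine Summable.of_nonneg_of_le (fun x => mul_nonneg (abs_nonneg _) (hcos x)) (fun x => ?_)
        (hQa.mul_right 2)
      exact mul_le_mul_of_nonneg_left (by linarith [Real.neg_one_le_cos (dotk k x)])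
        (abs_nonneg _)
    rw [e1]
    calc |∑' x, Q x * (1 - Real.cos (dotk k x))| ≤ ∑' x, |Q x * (1 - Real.cos (dotk k x))| := by
          have h2 : Summable (fun x => ‖Q x * (1 - Real.cos (dotk k x))‖) := by
            refine hs.congr (fun x => ?_)
            rw [Real.norm_eq_abs, abs_mul, abs_of_nonneg (hcos x)]
          exact norm_tsum_le_tsum_norm h2
      _ = ∑' x, |Q x| * (1 - Real.cos (dotk k x)) :=
          tsum_congr (fun x => by rw [abs_mul, abs_of_nonneg (hcos x)])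
      _ ≤ (∑' x, (1 + l1 x ^ 2) * |Q x|) * (1 - Dh k) := sum_one_sub_cos_le hd h.summable hP k
      _ ≤ ε * (1 - Dh k) := mul_le_mul_of_nonneg_right h.sum_le (one_sub_Dh_nonneg k)
  have ha : 0 ≤ 2 * (d : ℝ) * p := by positivity
  have h0 : (1 - 2 * d * p * (1 + ct Q 0)) * chi d p = 1 + ct Q 0 := by
    have e1 := heq 0
    rw [hD0, mul_one, ct_zero (tau p)] at e1
    exact e1
  have hmain := fun k => LIR_alg (T := ct (tau p) k) (D := Dh k) ha hε
    (g0 := 1 + ct Q 0) (gk := 1 + ct Q k) (by simpa using hctQ 0) (by simpa using hctQ k)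
    (by linarith [one_sub_Dh_nonneg k]) (by linarith [one_sub_Dh_le_two k]) (one_le_chi hdec) h0
    (heq k) (hdiff k)
  exact ⟨fun k => (hmain k).1, (hmain 0).2⟩

theorem LIR_ae {K : ℝ} (hd : 1 ≤ d) (h : IR K d p) :
    ∀ᵐ k ∂muT d, ct (tau p) k ≤ K * (1 - Dh k)⁻¹ := by
  filter_upwards [Dh_lt_one_ae hd] with k hk
  have h1 : 0 < 1 - Dh k := by linarith
  rw [← div_eq_mul_inv, le_div_iff₀ h1]
  exact (h k).2

theorem cpow_le_of_IR {K : ℝ} (hK : 0 ≤ K) (hdec : ExpDec d p) (h : IR K d p) (hd : 1 ≤ d) (m : ℕ)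
    (hm : 4 * m ≤ d) (x : V d) : cpow (tau p) m x ≤ K ^ m * Real.exp (4 * m) := by
  have hτ : Summable (tau p : V d → ℝ) := tau_summable hdec
  have hτe : ∀ x : V d, tau p (-x) = tau p x := tau_neg p
  obtain ⟨hI, hI2⟩ := int_inv_pow m hm hd
  have h1 := abs_le_int_ct (cpow_summable hτ m) (cpow_even hτe m) x
  calc cpow (tau p) m x ≤ |cpow (tau p) m x| := le_abs_self _
    _ ≤ ∫ k, |ct (cpow (tau p) m) k| ∂muT d := h1
    _ ≤ ∫ k, K ^ m * (1 - Dh k)⁻¹ ^ m ∂muT d := by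
        refine integral_mono_of_nonneg (Filter.Eventually.of_forall (fun k => abs_nonneg _))
          (hI.const_mul _) ?_
        filter_upwards [LIR_ae hd h] with k hk
        rw [ct_cpow hτ hτe, abs_pow, abs_of_nonneg (h k).1, ← mul_pow]
        exact pow_le_pow_left₀ (h k).1 hk m
    _ = K ^ m * ∫ k, (1 - Dh k)⁻¹ ^ m ∂muT d := integral_const_mul _ _
    _ ≤ K ^ m * Real.exp (4 * m) := mul_le_mul_of_nonneg_left hI2 (pow_nonneg hK m)

theorem conv_pJ_cpow_le_of_IR {K : ℝ} (hK : 0 ≤ K) (hp : 0 ≤ p) (hdec : ExpDec d p) (h : IR K d p)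
    (hd : 1 ≤ d) (m : ℕ) (hm : 8 * m ≤ d) (x : V d) :
    conv (pJ p) (cpow (tau p) m) x ≤
      2 * d * p * (K ^ m * Real.exp (4 * m) / Real.sqrt (2 * d)) := by
  have hτ : Summable (tau p : V d → ℝ) := tau_summable hdec
  have hτe : ∀ x : V d, tau p (-x) = tau p x := tau_neg p
  obtain ⟨hI, hI2⟩ := int_abs_Dh_inv_pow m hm hd
  have hpw := cpow_summable hτ m
  have hpwe := cpow_even hτe m
  have h1 := abs_le_int_ct (conv_summable (pJ_summable p) hpw)
    (fun y => conv_even (pJ_even p) hpwe y) x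
  calc conv (pJ p) (cpow (tau p) m) x ≤ |conv (pJ p) (cpow (tau p) m) x| := le_abs_self _
    _ ≤ ∫ k, |ct (conv (pJ p) (cpow (tau p) m)) k| ∂muT d := h1
    _ ≤ ∫ k, (2 * d * p * K ^ m) * (|Dh k| * (1 - Dh k)⁻¹ ^ m) ∂muT d := by
        refine integral_mono_of_nonneg (Filter.Eventually.of_forall (fun k => abs_nonneg _))
          (hI.const_mul _) ?_
        filter_upwards [LIR_ae hd h] with k hk
        rw [ct_conv (pJ_summable p) hpw hpwe, ct_pJ, ct_cpow hτ hτe, abs_mul, abs_mul, abs_pow,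
          abs_of_nonneg (h k).1, abs_of_nonneg (by positivity : 0 ≤ 2 * (d : ℝ) * p)]
        have e1 : ct (tau p) k ^ m ≤ K ^ m * (1 - Dh k)⁻¹ ^ m := by
          rw [← mul_pow]
          exact pow_le_pow_left₀ (h k).1 hk m
        calc 2 * (d : ℝ) * p * |Dh k| * ct (tau p) k ^ m
            ≤ 2 * (d : ℝ) * p * |Dh k| * (K ^ m * (1 - Dh k)⁻¹ ^ m) :=
              mul_le_mul_of_nonneg_left e1 (by positivity)
          _ = (2 * d * p * K ^ m) * (|Dh k| * (1 - Dh k)⁻¹ ^ m) := by ring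
    _ = (2 * d * p * K ^ m) * ∫ k, |Dh k| * (1 - Dh k)⁻¹ ^ m ∂muT d := integral_const_mul _ _
    _ ≤ (2 * d * p * K ^ m) * (Real.exp (4 * m) / Real.sqrt (2 * d)) :=
        mul_le_mul_of_nonneg_left hI2 (by positivity)
    _ = 2 * d * p * (K ^ m * Real.exp (4 * m) / Real.sqrt (2 * d)) := by ring

end Pool.Agent.helper55.FP
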