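import Pool.Agent.helper90.FP.LCt
import Pool.Agent.helper55.FP.Sprinkle
import Pool.Agent.helper28.FPS.B

/-!
# FP project, part L2, module LTau: the two-point function
-/

set_option autoImplicit false

open MeasureTheory Set

namespace Pool.Agent.helper55.FP

variable {d : ℕ} {p q : ℝ}

theorem tau_nonneg (p : ℝ) (x : V d) : 0 ≤ tau p x := measureReal_nonneg

theorem tau_le_one (p : ℝ) (x : V d) : tau p x ≤ 1 := measureReal_le_one

theorem tau_mono (h : p ≤ q) (x : V d) : tau p x ≤ tau q x := tauW_mono h subset_rfl 0 x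

theorem tau_perm (p : ℝ) : PermInv (tau p : V d → ℝ) := by
  intro σ x
  obtain ⟨A, hA⟩ := exists_perm σ
  have h := tauW_aut A p univ 0 x
  rw [preimage_univ, hA, hA] at h
  exact h.symm

theorem ExpDec.mono (h : ExpDec d q) (hpq : p ≤ q) : ExpDec d p := by
  obtain ⟨C, hC, c, hc, h⟩ := h
  exact ⟨C, hC, c, hc, fun x => (tau_mono hpq x).trans (h x)⟩

theorem tau_summable (h : ExpDec d p) : Summable (tau p : V d → ℝ) := by
  obtain ⟨C, hC, c, hc, h⟩ := h
  exact Pool.Agent.helper28.FPS.summable_tau hc h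

theorem one_le_chi (h : ExpDec d p) : 1 ≤ chi d p := by
  have h1 := (tau_summable h).le_tsum (0 : V d) (fun x _ => tau_nonneg p x)
  rw [tau_zero] at h1
  exact h1

theorem chi_mono (h : ExpDec d q) (hpq : p ≤ q) : chi d p ≤ chi d q :=
  (tau_summable (h.mono hpq)).tsum_le_tsum (fun x => tau_mono hpq x) (tau_summable h)

/-- first edge of the connection -/
theorem tau_step (hp : 0 ≤ p) (hp1 : p ≤ 1) (h : ExpDec d p) (x : V d) :
    tau p x ≤ dirac0 x + conv (pJ p) (tau p) x := by
  classical
  by_cases hx : x = 0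
  · subst hx
    have h1 : (dirac0 : V d → ℝ) 0 = 1 := by simp [dirac0]
    rw [h1, tau_zero]
    have h2 := conv_nonneg (f := pJ p) (g := tau p) (pJ_nonneg hp) (tau_nonneg p) (0 : V d)
    linarith
  · have h1 : (dirac0 : V d → ℝ) x = 0 := by simp [dirac0, hx]
    rw [h1, zero_add]
    have hb : x ∉ ({0} : Finset (V d)) := by simpa using hx
    have h2 := Pool.Agent.helper28.FPS.tau_le_sum hp hp1 {0} (Finset.mem_singleton_self _) hb
    refine h2.trans ?_
    have hinn : ∀ e ∈ Pool.Agent.helper28.FPS.bd ({0} : Finset (V d)),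
        Joins e 0 (Pool.Agent.helper28.FPS.out {0} e) := by
      intro e he
      obtain ⟨h3, h4, h5⟩ := Pool.Agent.helper28.FPS.bd_spec he
      rw [Finset.mem_singleton] at h3
      rwa [h3] at h5
    have h3 : ∀ e ∈ Pool.Agent.helper28.FPS.bd ({0} : Finset (V d)),
        p * tauW p (↑({0} : Finset (V d))) 0 (Pool.Agent.helper28.FPS.inn {0} e) *
          tau p (x - Pool.Agent.helper28.FPS.out {0} e) ≤
        pJ p (Pool.Agent.helper28.FPS.out {0} e) * tau p (x - Pool.Agent.helper28.FPS.out {0} e) := by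
      intro e he
      apply mul_le_mul_of_nonneg_right _ (tau_nonneg _ _)
      have h4 : pJ p (Pool.Agent.helper28.FPS.out {0} e) = p := by
        unfold pJ
        rw [if_pos ⟨e, hinn e he⟩]
      rw [h4]
      have h5 : tauW p (↑({0} : Finset (V d))) 0 (Pool.Agent.helper28.FPS.inn {0} e) ≤ 1 :=
        measureReal_le_one
      exact mul_le_of_le_one_right hp h5
    refine (Finset.sum_le_sum h3).trans ?_
    have hinj : Set.InjOn (Pool.Agent.helper28.FPS.out ({0} : Finset (V d)))
        (Pool.Agent.helper28.FPS.bd ({0} : Finset (V d)) : Set (E d)) := by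
      intro e he e' he' hee
      have h4 := hinn e he
      have h5 := hinn e' he'
      rw [← hee] at h5
      exact h4.unique h5
    rw [← Finset.sum_image (f := fun y => pJ p y * tau p (x - y)) hinj]
    exact (conv_point_summable (pJ_summable p) (tau_summable h) x).sum_le_tsum _
      (fun y _ => mul_nonneg (pJ_nonneg hp y) (tau_nonneg _ _))

theorem LTau_adj_sub (u v : V d) : Adj u v ↔ Adj 0 (v - u) := by
  have key : ∀ (u v z : V d), Adj u v → Adj (u + z) (v + z) := by
    intro u v z h
    obtain ⟨A, hA⟩ := exists_translation z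
    obtain ⟨e, he⟩ := h
    refine ⟨A.ψ e, ?_⟩
    have h1 := (A.joins e u v).1 he
    rwa [hA, hA] at h1
  constructor
  · intro h
    have h1 := key _ _ (-u) h
    rwa [add_neg_cancel, ← sub_eq_add_neg] at h1
  · intro h
    have h1 := key _ _ u h
    rwa [zero_add, sub_add_cancel] at h1

theorem tau_diff (hp : 0 ≤ p) (hpq : p ≤ q) (hq : q ≤ 1) (h : ExpDec d q) (x : V d) :
    tau q x - tau p x ≤ conv (tau p) (conv (pJ (q - p)) (tau q)) x := by
  classical
  have hq0 : 0 ≤ q - p := by linarith
  have hsp : Summable (tau p : V d → ℝ) := tau_summable (h.mono hpq)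
  have hsq : Summable (tau q : V d → ℝ) := tau_summable h
  have hsJ : Summable (pJ (q - p) : V d → ℝ) := pJ_summable _
  have hin0 : ∀ y : V d, 0 ≤ conv (pJ (q - p)) (tau q) y :=
    conv_nonneg (pJ_nonneg hq0) (tau_nonneg q)
  have hc0 : 0 ≤ conv (tau p) (conv (pJ (q - p)) (tau q)) x :=
    conv_nonneg (tau_nonneg p) hin0 x
  -- the difference of the two-point functions is the probability of the event in `sprinkle`
  have h1 : tau q x - tau p x =
      (P d).real {U : Cfg d | Conn (op q U) univ 0 x ∧ ¬ Conn (op p U) univ 0 x} := by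
    have h2 : {U : Cfg d | Conn (op q U) univ 0 x ∧ ¬ Conn (op p U) univ 0 x} =
        {U : Cfg d | Conn (op q U) univ 0 x} \ {U : Cfg d | Conn (op p U) univ 0 x} := rfl
    rw [h2, measureReal_sdiff _ (measurableSet_conn p univ 0 x)]
    · rfl
    · intro U hU
      exact Conn.mono (op_mono hpq U) subset_rfl hU
  have h2 : ENNReal.ofReal (tau q x - tau p x) ≤
      ENNReal.ofReal (conv (tau p) (conv (pJ (q - p)) (tau q)) x) := by
    rw [h1, ofReal_measureReal (measure_ne_top _ _)]
    refine (sprinkle hp hpq hq univ 0 x).trans (le_of_eq ?_)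
    have h3 : conv (tau p) (conv (pJ (q - p)) (tau q)) x =
        ∑' u : V d, tau p u * conv (pJ (q - p)) (tau q) (x - u) := rfl
    rw [h3, ENNReal.ofReal_tsum_of_nonneg (fun u => mul_nonneg (tau_nonneg _ _) (hin0 _))
      (conv_point_summable hsp (conv_summable hsJ hsq) x), ← ENNReal.tsum_mul_left,
      ENNReal.tsum_prod']
    apply tsum_congr
    intro u
    have h4 : tau p u * conv (pJ (q - p)) (tau q) (x - u) =
        ∑' w : V d, tau p u * (pJ (q - p) w * tau q (x - u - w)) := by
      rw [tsum_mul_left]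
      rfl
    rw [h4, ENNReal.ofReal_tsum_of_nonneg
      (fun w => mul_nonneg (tau_nonneg _ _) (mul_nonneg (pJ_nonneg hq0 _) (tau_nonneg _ _)))
      ((conv_point_summable hsJ hsq (x - u)).mul_left _)]
    rw [← (Equiv.addLeft u).tsum_eq]
    apply tsum_congr
    intro w
    simp only [Equiv.coe_addLeft]
    by_cases hadj : Adj 0 w
    · have h5 : Adj u (u + w) := by
        rw [LTau_adj_sub, add_sub_cancel_left]
        exact hadj
      rw [Set.indicator_of_mem (by exact ⟨mem_univ _, mem_univ _, h5⟩)]
      have h6 : pJ (q - p) w = q - p := by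
        unfold pJ
        rw [if_pos hadj]
      rw [h6, ← ENNReal.ofReal_mul hq0]
      congr 1
      have h7 : tauW p univ 0 u = tau p u := rfl
      have h8 : tauW q univ (u + w) x = tau q (x - u - w) := by
        rw [tauW_univ, sub_add_eq_sub_sub]
      rw [h7, h8]
      ring
    · have h5 : ¬ Adj u (u + w) := by
        rw [LTau_adj_sub, add_sub_cancel_left]
        exact hadj
      rw [Set.indicator_of_notMem (by rintro ⟨_, _, h⟩; exact h5 h)]
      have h6 : pJ (q - p) w = 0 := by
        unfold pJ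
        rw [if_neg hadj]
      rw [h6]
      simp
  exact (ENNReal.ofReal_le_ofReal_iff hc0).1 h2

theorem chi_diff (hp : 0 ≤ p) (hpq : p ≤ q) (hq : q ≤ 1) (h : ExpDec d q) :
    chi d q - chi d p ≤ 2 * d * (q - p) * chi d p * chi d q := by
  have hsp : Summable (tau p : V d → ℝ) := tau_summable (h.mono hpq)
  have hsq : Summable (tau q : V d → ℝ) := tau_summable h
  have hsJ : Summable (pJ (q - p) : V d → ℝ) := pJ_summable _
  have hsc := conv_summable hsJ hsq
  have h1 : chi d q - chi d p = ∑' x : V d, (tau q x - tau p x) := by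
    unfold chi
    rw [hsq.tsum_sub hsp]
  rw [h1]
  refine ((hsq.sub hsp).tsum_le_tsum (fun x => tau_diff hp hpq hq h x)
    (conv_summable hsp hsc)).trans (le_of_eq ?_)
  rw [tsum_conv hsp hsc, tsum_conv hsJ hsq, tsum_pJ]
  unfold chi
  ring

theorem cpow_tau_le (hp : 0 ≤ p) (hp1 : p ≤ 1) (h : ExpDec d p) {s : ℝ}
    (hs : ∀ x : V d, conv (pJ p) (cpow (tau p) 8) x ≤ s) {j : ℕ} (hj : j ≤ 8) (x : V d) :
    cpow (tau p) j x ≤ dirac0 x + j * s := by
  have hsp : Summable (tau p : V d → ℝ) := tau_summable h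
  have hsJ : Summable (pJ p : V d → ℝ) := pJ_summable _
  induction j generalizing x with
  | zero =>
    have h1 : cpow (tau p) 0 x = dirac0 x := rfl
    rw [h1]
    simp
  | succ j ih =>
    have hcj := cpow_summable hsp j
    have hcJ := conv_summable hsJ hsp
    have h1 : cpow (tau p) (j + 1) x ≤
        conv (fun x => dirac0 x + conv (pJ p) (tau p) x) (cpow (tau p) j) x := by
      have h2 : cpow (tau p) (j + 1) x = conv (tau p) (cpow (tau p) j) x := rfl
      rw [h2]
      exact conv_mono (dirac0_summable.add hcJ) hcj (tau_nonneg p)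
        (cpow_nonneg (tau_nonneg p) j) (tau_step hp hp1 h) (fun _ => le_rfl) x
    have h2 : conv (fun x => dirac0 x + conv (pJ p) (tau p) x) (cpow (tau p) j) x =
        cpow (tau p) j x + conv (pJ p) (cpow (tau p) (j + 1)) x := by
      rw [conv_add_left dirac0_summable hcJ hcj, dirac0_conv, conv_assoc hsJ hsp hcj]
      rfl
    have h3 : conv (pJ p) (cpow (tau p) (j + 1)) x ≤ conv (pJ p) (cpow (tau p) 8) x := by
      apply conv_mono hsJ (cpow_summable hsp 8) (pJ_nonneg hp)
        (cpow_nonneg (tau_nonneg p) (j + 1)) (fun _ => le_rfl)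
      intro y
      exact cpow_le_cpow hsp (tau_nonneg p) (tau_zero p).ge hj y
    have h4 := ih (by omega) x
    have h5 := hs x
    push_cast
    linarith

end Pool.Agent.helper55.FP
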