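import Pool.Agent.helper90.FP.LTau

/-!
# FP project, part L2, module LTrig: symmetrisation of `Q`, the bound of `1 - cos`
-/

set_option autoImplicit false

open MeasureTheory Set

namespace Pool.Agent.helper55.FP

variable {d : ℕ}

theorem l1_nonneg (x : V d) : 0 ≤ l1 x := Finset.sum_nonneg fun _ _ => abs_nonneg _

theorem LTrig_abs_sin_nat (n : ℕ) (t : ℝ) : |Real.sin (n * t)| ≤ n * |Real.sin t| := by
  induction n with
  | zero => simp
  | succ n ih =>
    have e : ((n + 1 : ℕ) : ℝ) * t = n * t + t := by push_cast; ring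
    rw [e, Real.sin_add]
    have h1 : |Real.cos t| ≤ 1 := Real.abs_cos_le_one t
    have h2 : |Real.cos (n * t)| ≤ 1 := Real.abs_cos_le_one _
    calc |Real.sin (n * t) * Real.cos t + Real.cos (n * t) * Real.sin t|
        ≤ |Real.sin (n * t)| * |Real.cos t| + |Real.cos (n * t)| * |Real.sin t| := by
          rw [← abs_mul, ← abs_mul]; exact abs_add_le _ _
      _ ≤ (n * |Real.sin t|) * 1 + 1 * |Real.sin t| := by
          apply add_le_add
          · exact mul_le_mul ih h1 (abs_nonneg _) (by positivity)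
          · exact mul_le_mul_of_nonneg_right h2 (abs_nonneg _)
      _ = ((n + 1 : ℕ) : ℝ) * |Real.sin t| := by push_cast; ring

theorem LTrig_abs_sin_int (n : ℤ) (t : ℝ) : |Real.sin (n * t)| ≤ |(n : ℝ)| * |Real.sin t| := by
  obtain ⟨m, rfl | rfl⟩ := n.eq_nat_or_neg
  · have := LTrig_abs_sin_nat m t
    simpa using this
  · have := LTrig_abs_sin_nat m t
    simpa using this

theorem LTrig_abs_sin_sum {ι : Type*} (s : Finset ι) (t : ι → ℝ) :
    |Real.sin (∑ i ∈ s, t i)| ≤ ∑ i ∈ s, |Real.sin (t i)| := by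
  classical
  induction s using Finset.induction_on with
  | empty => simp
  | insert a s ha ih =>
    rw [Finset.sum_insert ha, Finset.sum_insert ha, Real.sin_add]
    calc |Real.sin (t a) * Real.cos (∑ i ∈ s, t i) + Real.cos (t a) * Real.sin (∑ i ∈ s, t i)|
        ≤ |Real.sin (t a)| * |Real.cos (∑ i ∈ s, t i)|
          + |Real.cos (t a)| * |Real.sin (∑ i ∈ s, t i)| := by
          rw [← abs_mul, ← abs_mul]; exact abs_add_le _ _
      _ ≤ |Real.sin (t a)| * 1 + 1 * ∑ i ∈ s, |Real.sin (t i)| := by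
          apply add_le_add
          · exact mul_le_mul_of_nonneg_left (Real.abs_cos_le_one _) (abs_nonneg _)
          · exact mul_le_mul (Real.abs_cos_le_one _) ih (abs_nonneg _) zero_le_one
      _ = _ := by ring

theorem LTrig_one_sub_cos (t : ℝ) : 1 - Real.cos t = 2 * Real.sin (t / 2) ^ 2 := by
  have h := Real.cos_two_mul (t / 2)
  have h2 := Real.sin_sq_add_cos_sq (t / 2)
  rw [show 2 * (t / 2) = t by ring] at h
  linarith

theorem one_sub_cos_dotk_le (k : Fin d → ℝ) (x : V d) :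
    1 - Real.cos (dotk k x) ≤ l1 x * ∑ i, |(x i : ℝ)| * (1 - Real.cos (k i)) := by
  have h1 : |Real.sin (dotk k x / 2)| ≤ ∑ i, |(x i : ℝ)| * |Real.sin (k i / 2)| := by
    have e : dotk k x / 2 = ∑ i, (x i : ℝ) * (k i / 2) := by
      rw [dotk, Finset.sum_div]
      exact Finset.sum_congr rfl fun i _ => by ring
    rw [e]
    exact (LTrig_abs_sin_sum _ _).trans (Finset.sum_le_sum fun i _ => LTrig_abs_sin_int _ _)
  have h2 : (∑ i, |(x i : ℝ)| * |Real.sin (k i / 2)|) ^ 2 ≤
      (∑ i, |(x i : ℝ)|) * ∑ i, |(x i : ℝ)| * Real.sin (k i / 2) ^ 2 := by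
    refine Finset.sum_sq_le_sum_mul_sum_of_sq_le_mul Finset.univ (fun i _ => abs_nonneg _)
      (fun i _ => mul_nonneg (abs_nonneg _) (sq_nonneg _)) fun i _ => le_of_eq ?_
    rw [mul_pow, sq_abs (Real.sin (k i / 2))]
    ring
  have h3 : Real.sin (dotk k x / 2) ^ 2 ≤
      (∑ i, |(x i : ℝ)| * |Real.sin (k i / 2)|) ^ 2 := by
    rw [← sq_abs]
    exact pow_le_pow_left₀ (abs_nonneg _) h1 2
  rw [LTrig_one_sub_cos]
  have e : ∑ i, |(x i : ℝ)| * (1 - Real.cos (k i))
      = 2 * ∑ i, |(x i : ℝ)| * Real.sin (k i / 2) ^ 2 := by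
    rw [Finset.mul_sum]
    exact Finset.sum_congr rfl fun i _ => by rw [LTrig_one_sub_cos]; ring
  rw [e, l1]
  linarith

/-- permuting the coordinates -/
def LTrig_permE (σ : Equiv.Perm (Fin d)) : V d ≃ V d where
  toFun := fun x i => x (σ i)
  invFun := fun x i => x (σ.symm i)
  left_inv := fun x => by funext i; simp
  right_inv := fun x => by funext i; simp

theorem LTrig_l1_perm (σ : Equiv.Perm (Fin d)) (x : V d) : l1 (fun i => x (σ i)) = l1 x := by
  unfold l1
  exact Equiv.sum_comp σ (fun i => |(x i : ℝ)|)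

theorem sum_one_sub_cos_le (hd : 1 ≤ d) {Q : V d → ℝ}
    (hQ : Summable (fun x => (1 + l1 x ^ 2) * |Q x|)) (hP : PermInv Q) (k : Fin d → ℝ) :
    ∑' x, |Q x| * (1 - Real.cos (dotk k x)) ≤
      (∑' x, (1 + l1 x ^ 2) * |Q x|) * (1 - Dh k) := by
  have hd0 : (d : ℝ) ≠ 0 := by
    have : d ≠ 0 := by omega
    exact_mod_cast this
  -- summability
  have hxi : ∀ (x : V d) (i : Fin d), |(x i : ℝ)| ≤ l1 x := fun x i =>
    Finset.single_le_sum (f := fun i => |(x i : ℝ)|) (fun j _ => abs_nonneg _) (Finset.mem_univ i)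
  have hS2 : Summable (fun x => |Q x| * l1 x ^ 2) := by
    refine Summable.of_nonneg_of_le (fun x => by positivity) (fun x => ?_) hQ
    nlinarith [abs_nonneg (Q x), sq_nonneg (l1 x)]
  have hA : ∀ i : Fin d, Summable (fun x : V d => |Q x| * (l1 x * |(x i : ℝ)|)) := by
    intro i
    refine Summable.of_nonneg_of_le (fun x => ?_) (fun x => ?_) hS2
    · exact mul_nonneg (abs_nonneg _) (mul_nonneg (l1_nonneg x) (abs_nonneg _))
    · rw [sq]
      exact mul_le_mul_of_nonneg_left (mul_le_mul_of_nonneg_left (hxi x i) (l1_nonneg x))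
        (abs_nonneg _)
  set A : Fin d → ℝ := fun i => ∑' x : V d, |Q x| * (l1 x * |(x i : ℝ)|) with hAdef
  have hAeq : ∀ i j, A i = A j := by
    intro i j
    have h := (LTrig_permE (Equiv.swap i j)).tsum_eq (fun x : V d => |Q x| * (l1 x * |(x i : ℝ)|))
    rw [hAdef]
    dsimp only
    rw [← h]
    refine tsum_congr fun x => ?_
    have e1 : Q ((LTrig_permE (Equiv.swap i j)) x) = Q x := hP _ x
    have e2 : l1 ((LTrig_permE (Equiv.swap i j)) x) = l1 x := LTrig_l1_perm _ x
    have e3 : (LTrig_permE (Equiv.swap i j)) x i = x j := by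
      change x (Equiv.swap i j i) = x j
      rw [Equiv.swap_apply_left]
    rw [e1, e2, e3]
  have hAsum : ∑ i, A i = ∑' x, |Q x| * l1 x ^ 2 := by
    rw [hAdef]
    rw [← Summable.tsum_finsetSum fun i _ => hA i]
    refine tsum_congr fun x => ?_
    rw [← Finset.mul_sum, ← Finset.mul_sum, sq]
    rfl
  have i0 : Fin d := ⟨0, hd⟩
  have hAi : ∀ i, A i = (∑' x, |Q x| * l1 x ^ 2) / d := by
    intro i
    rw [eq_div_iff hd0, ← hAsum]
    rw [Finset.sum_congr rfl fun j _ => hAeq j i, Finset.sum_const, Finset.card_univ,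
      Fintype.card_fin, nsmul_eq_mul, mul_comm]
  -- first step
  have hcos : ∀ i, 0 ≤ 1 - Real.cos (k i) := fun i => sub_nonneg.2 (Real.cos_le_one _)
  have hB : Summable (fun x : V d => ∑ i, (1 - Real.cos (k i)) * (|Q x| * (l1 x * |(x i : ℝ)|))) :=
    summable_sum fun i _ => (hA i).mul_left _
  have hle : ∀ x : V d, |Q x| * (1 - Real.cos (dotk k x)) ≤
      ∑ i, (1 - Real.cos (k i)) * (|Q x| * (l1 x * |(x i : ℝ)|)) := by
    intro x
    have h := mul_le_mul_of_nonneg_left (one_sub_cos_dotk_le k x) (abs_nonneg (Q x))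
    refine h.trans (le_of_eq ?_)
    rw [Finset.mul_sum, Finset.mul_sum]
    exact Finset.sum_congr rfl fun i _ => by ring
  have hC : Summable (fun x : V d => |Q x| * (1 - Real.cos (dotk k x))) :=
    Summable.of_nonneg_of_le
      (fun x => mul_nonneg (abs_nonneg _) (sub_nonneg.2 (Real.cos_le_one _))) hle hB
  have h1 : ∑' x, |Q x| * (1 - Real.cos (dotk k x)) ≤
      ∑ i, (1 - Real.cos (k i)) * A i := by
    refine (Summable.tsum_le_tsum hle hC hB).trans (le_of_eq ?_)
    rw [Summable.tsum_finsetSum fun i _ => (hA i).mul_left _]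
    exact Finset.sum_congr rfl fun i _ => tsum_mul_left
  have h2 : ∑ i, (1 - Real.cos (k i)) * A i = (∑' x, |Q x| * l1 x ^ 2) * (1 - Dh k) := by
    rw [Finset.sum_congr rfl fun i _ => by rw [hAi i], ← Finset.sum_mul, Finset.sum_sub_distrib,
      Finset.sum_const, Finset.card_univ, Fintype.card_fin, nsmul_eq_mul, mul_one, Dh]
    field_simp
  rw [h2] at h1
  refine h1.trans (mul_le_mul_of_nonneg_right ?_ (one_sub_Dh_nonneg k))
  refine Summable.tsum_le_tsum (fun x => ?_) hS2 hQ
  nlinarith [abs_nonneg (Q x), sq_nonneg (l1 x)]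

theorem LTrig_dirac0_perm : PermInv (dirac0 : V d → ℝ) := by
  intro σ x
  unfold dirac0
  have : (fun i => x (σ i)) = 0 ↔ x = 0 := by
    constructor
    · intro h
      funext i
      have := congrFun h (σ.symm i)
      simpa using this
    · rintro rfl; rfl
  simp only [this]

theorem LTrig_lacePi_perm {p ε : ℝ} {Q : V d → ℝ} (h : LacePi d p ε Q)
    (σ : Equiv.Perm (Fin d)) : LacePi d p ε (fun x => Q (fun i => x (σ i))) := by
  have e0 : ∀ x : V d, (1 + l1 x ^ 2) * |Q (fun i => x (σ i))|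
      = (fun y : V d => (1 + l1 y ^ 2) * |Q y|) (LTrig_permE σ x) := by
    intro x
    change _ = (1 + l1 (fun i => x (σ i)) ^ 2) * |Q (fun i => x (σ i))|
    rw [LTrig_l1_perm]
  refine ⟨?_, ?_, ?_⟩
  · have := (LTrig_permE σ).summable_iff.2 h.summable
    refine this.congr fun x => ?_
    rw [e0]; rfl
  · refine le_trans (le_of_eq ?_) h.sum_le
    rw [← (LTrig_permE σ).tsum_eq (fun y : V d => (1 + l1 y ^ 2) * |Q y|)]
    exact tsum_congr e0
  · intro x
    have h1 := h.eqn (fun i => x (σ i))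
    rw [tau_perm p σ x, LTrig_dirac0_perm σ x, conv_perm, conv_perm] at h1
    have e1 : (fun y : V d => pJ p (fun i => y (σ i))) = pJ p := by
      funext y; exact pJ_perm p σ y
    have e2 : (fun y : V d => tau p (fun i => y (σ i))) = tau p := by
      funext y; exact tau_perm p σ y
    have e3 : (fun y : V d => conv (pJ p) (tau p) (fun i => y (σ i))) = conv (pJ p) (tau p) := by
      funext y; rw [conv_perm, e1, e2]
    rw [e1, e2, e3] at h1
    exact h1

theorem LacePi.summable_self {p ε : ℝ} {Q : V d → ℝ} (h : LacePi d p ε Q) : Summable Q := by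
  have h1 : Summable (fun x => |Q x|) := by
    refine Summable.of_nonneg_of_le (fun x => abs_nonneg _) (fun x => ?_) h.summable
    nlinarith [abs_nonneg (Q x), sq_nonneg (l1 x)]
  exact h1.of_abs

theorem LacePi.symmetrize {p ε : ℝ} {Q : V d → ℝ} (hdec : ExpDec d p) (h : LacePi d p ε Q) :
    ∃ Q' : V d → ℝ, LacePi d p ε Q' ∧ PermInv Q' := by
  classical
  set c : ℝ := ((Fintype.card (Equiv.Perm (Fin d)) : ℝ))⁻¹ with hc
  have hcard : (Fintype.card (Equiv.Perm (Fin d)) : ℝ) ≠ 0 := by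
    have : Fintype.card (Equiv.Perm (Fin d)) ≠ 0 := Fintype.card_ne_zero
    exact_mod_cast this
  have hc0 : 0 ≤ c := by positivity
  have hc1 : c * ∑ _σ : Equiv.Perm (Fin d), (1 : ℝ) = 1 := by
    rw [Finset.sum_const, Finset.card_univ, nsmul_eq_mul, mul_one, hc, inv_mul_cancel₀ hcard]
  set q : Equiv.Perm (Fin d) → V d → ℝ := fun σ x => Q (fun i => x (σ i)) with hq
  have hqL : ∀ σ, LacePi d p ε (q σ) := fun σ => LTrig_lacePi_perm h σ
  have hqs : ∀ σ, Summable (q σ) := fun σ => (hqL σ).summable_self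
  have hts := tau_summable hdec
  have hJt : Summable (conv (pJ p) (tau p) : V d → ℝ) := conv_summable (pJ_summable p) hts
  have havg : ∀ r : ℝ, c * ∑ _σ : Equiv.Perm (Fin d), r = r := by
    intro r
    rw [Finset.sum_const, Finset.card_univ, nsmul_eq_mul, hc, ← mul_assoc, inv_mul_cancel₀ hcard,
      one_mul]
  have hW : ∀ σ, Summable (fun x => c * ((1 + l1 x ^ 2) * |q σ x|)) := fun σ =>
    (hqL σ).summable.mul_left c
  have hle : ∀ x : V d, (1 + l1 x ^ 2) * |c * ∑ σ, q σ x| ≤
      ∑ σ, c * ((1 + l1 x ^ 2) * |q σ x|) := by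
    intro x
    rw [abs_mul, abs_of_nonneg hc0, ← Finset.mul_sum, ← Finset.mul_sum]
    have h1 : |∑ σ, q σ x| ≤ ∑ σ, |q σ x| := Finset.abs_sum_le_sum_abs _ _
    have h2 : 0 ≤ 1 + l1 x ^ 2 := by positivity
    calc (1 + l1 x ^ 2) * (c * |∑ σ, q σ x|) ≤ (1 + l1 x ^ 2) * (c * ∑ σ, |q σ x|) := by gcongr
      _ = _ := by ring
  have hsum : Summable (fun x => ∑ σ, c * ((1 + l1 x ^ 2) * |q σ x|)) :=
    summable_sum fun σ _ => hW σ
  refine ⟨fun x => c * ∑ σ, q σ x, ⟨?_, ?_, ?_⟩, ?_⟩
  · exact Summable.of_nonneg_of_le (fun x => by positivity) hle hsum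
  · have hs' : Summable (fun x : V d => (1 + l1 x ^ 2) * |c * ∑ σ, q σ x|) :=
      Summable.of_nonneg_of_le (fun x => by positivity) hle hsum
    refine (Summable.tsum_le_tsum hle hs' hsum).trans ?_
    rw [Summable.tsum_finsetSum fun σ _ => hW σ]
    calc ∑ σ, ∑' x, c * ((1 + l1 x ^ 2) * |q σ x|)
        = c * ∑ σ, ∑' x, (1 + l1 x ^ 2) * |q σ x| := by
          rw [Finset.mul_sum]
          exact Finset.sum_congr rfl fun σ _ => tsum_mul_left
      _ ≤ c * ∑ _σ : Equiv.Perm (Fin d), ε := by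
          refine mul_le_mul_of_nonneg_left (Finset.sum_le_sum fun σ _ => ?_) hc0
          exact (hqL σ).sum_le
      _ = ε := havg ε
  · intro x
    have hconv : conv (fun x => c * ∑ σ, q σ x) (conv (pJ p) (tau p)) x
        = c * ∑ σ, conv (q σ) (conv (pJ p) (tau p)) x := by
      unfold conv
      rw [Finset.mul_sum]
      have e : ∀ y : V d, (c * ∑ σ, q σ y) * (∑' z, pJ p z * tau p (x - y - z))
          = ∑ σ, c * (q σ y * (∑' z, pJ p z * tau p (x - y - z))) := by
        intro y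
        rw [Finset.mul_sum, Finset.sum_mul]
        exact Finset.sum_congr rfl fun σ _ => by ring
      rw [tsum_congr e, Summable.tsum_finsetSum]
      · exact Finset.sum_congr rfl fun σ _ => tsum_mul_left
      · intro σ _
        exact (conv_point_summable (hqs σ) hJt x).mul_left c
    rw [hconv]
    have h1 : c * ∑ σ : Equiv.Perm (Fin d), (dirac0 x + q σ x + conv (pJ p) (tau p) x
        + conv (q σ) (conv (pJ p) (tau p)) x) = tau p x := by
      have e : ∀ σ : Equiv.Perm (Fin d), (dirac0 x + q σ x + conv (pJ p) (tau p) x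
        + conv (q σ) (conv (pJ p) (tau p)) x) = tau p x := fun σ => ((hqL σ).eqn x).symm
      rw [Finset.sum_congr rfl fun σ _ => e σ]
      exact havg _
    rw [← h1]
    simp only [Finset.sum_add_distrib, mul_add]
    rw [havg, havg]
  · intro σ x
    dsimp only
    congr 1
    rw [hq]
    dsimp only
    exact Fintype.sum_equiv (Equiv.mulLeft σ) _ _ fun τ => rfl

end Pool.Agent.helper55.FP
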